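import Pool.Agent.H18PR.Nrm

/-!
# The real places (project PR of helper68)

By helper18.
-/

set_option autoImplicit false
set_option linter.all false

open Polynomial NumberField
open scoped Classical

namespace Pool.Agent.H18PR

open Pool.Agent.N783.PF
open Pool.Agent.N31.PF (fin pb minp)
open Pool.Agent.N783.PQ (LocIm)
open Pool.Agent.H68K.PR

/-- The number of real embeddings. -/
theorem card_real (K : Type) [Field K] [NumberField K] :
    Fintype.card (K →+* ℝ) = InfinitePlace.nrRealPlaces K := by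
  rw [← InfinitePlace.card_real_embeddings K]
  refine Fintype.card_congr (Equiv.ofBijective
    (fun τ : K →+* ℝ => (⟨Complex.ofRealHom.comp τ, ?_⟩ :
      {φ : K →+* ℂ // ComplexEmbedding.IsReal φ})) ⟨?_, ?_⟩)
  · rw [ComplexEmbedding.isReal_iff]
    ext x
    simp
  · intro τ τ' h
    rw [Subtype.mk_eq_mk] at h
    ext x
    have h1 := RingHom.congr_fun h x
    simpa using h1
  · rintro ⟨φ, hφ⟩
    refine ⟨hφ.embedding, ?_⟩
    rw [Subtype.mk_eq_mk]
    ext x
    simp [ComplexEmbedding.IsReal.coe_embedding_apply]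

section gen

variable {F L : Type} [Field F] [NumberField F] [Field L] [NumberField L] [Algebra F L]
  {f : (𝓞 F)[X]} {θ : L}

theorem emb (h : IsGen 1 f θ) (σ : F →+* ℝ) {e : ℝ} (he : ((fF f).map σ).eval e = 0) :
    ∃ τ : L →+* ℝ, ∀ p : F[X], τ (aeval θ p) = (p.map σ).eval e := by
  letI := σ.toAlgebra
  have h1 : aeval e (minpoly F (pb h).gen) = 0 := by
    have h2 : minpoly F (pb h).gen = fF f := minp h
    rw [h2, aeval_def, ← eval_map]
    exact he
  refine ⟨((pb h).lift e h1).toRingHom, fun p => ?_⟩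
  have h3 : (pb h).lift e h1 θ = e := (pb h).lift_gen e h1
  show (pb h).lift e h1 (aeval θ p) = _
  rw [← aeval_algHom_apply, h3, aeval_def, ← eval_map]
  rfl

theorem ex_poly (h : IsGen 1 f θ) (x : L) : ∃ p : F[X], aeval θ p = x := by
  obtain ⟨c, rfl⟩ := h.gen x
  refine ⟨∑ i, C (c i) * X ^ (i : ℕ), ?_⟩
  simp [map_sum]

/-- There are three real roots. -/
def Tri (f : (𝓞 F)[X]) (σ : F →+* ℝ) : Prop := ∃ a b c : ℝ, C3 ((fF f).map σ) a b c

theorem place (h : IsGen 1 f θ) (σ : F →+* ℝ) : ∃ τ : L →+* ℝ,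
    (∀ β : L, β ≠ 0 → IsSquare (Algebra.norm F β) → 0 < τ β → ∀ p : F[X], aeval θ p = β →
      LocIm ℝ ((fF f).map σ) (p.map σ)) ∧
    (¬ Tri f σ → ∀ β : L, β ≠ 0 → IsSquare (Algebra.norm F β) → 0 < τ β) := by
  haveI := fin h
  obtain ⟨hm, hd, hs⟩ := monR h σ
  have hN : ∀ β : L, β ≠ 0 → IsSquare (Algebra.norm F β) → 0 < σ (Algebra.norm F β) := by
    intro β hβ hsq
    obtain ⟨r, hr⟩ := hsq
    have h1 : Algebra.norm F β ≠ 0 := Algebra.norm_ne_zero_iff.2 hβ
    have h2 : σ (Algebra.norm F β) ≠ 0 := by rwa [Ne, map_eq_zero]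
    rw [hr, map_mul] at h2 ⊢
    exact lt_of_le_of_ne (mul_self_nonneg _) (Ne.symm h2)
  rcases cubic_cases _ hm hd hs with ⟨a, b, c, hp⟩ | ⟨a, z, hp⟩
  · have ha : ((fF f).map σ).eval a = 0 := by rw [hp.eq]; simp
    obtain ⟨τ, hτ⟩ := emb h σ ha
    refine ⟨τ, ?_, fun hT => absurd ⟨a, b, c, hp⟩ hT⟩
    intro β hβ hsq hpos p hpβ
    have h1 := hN β hβ hsq
    rw [← hpβ, nrm3 h hp p, mul_assoc] at h1
    rw [← hpβ, hτ] at hpos
    exact locR hp hpos.le ((mul_pos_iff_of_pos_left hpos).1 h1)
  · have ha : ((fF f).map σ).eval a = 0 := by rw [hp.eq]; simp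
    obtain ⟨τ, hτ⟩ := emb h σ ha
    refine ⟨τ, ?_, ?_⟩
    · intro β hβ hsq hpos p hpβ
      rw [← hpβ, hτ] at hpos
      exact locR1 hp hpos.le
    · intro _ β hβ hsq
      obtain ⟨p, rfl⟩ := ex_poly h β
      have h1 := hN _ hβ hsq
      rw [nrm1 h hp p] at h1
      rw [hτ]
      exact pos_of_mul_pos_left h1 (Complex.normSq_nonneg _)

/-- The number of real embeddings over a real embedding. -/
theorem fib (h : IsGen 1 f θ) (σ : F →+* ℝ) :
    (if Tri f σ then 3 else 1) ≤
      (Finset.univ.filter fun τ : L →+* ℝ => τ.comp (algebraMap F L) = σ).card := by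
  obtain ⟨hm, hd, hs⟩ := monR h σ
  have key : ∀ (R : Finset ℝ), (∀ e ∈ R, ((fF f).map σ).eval e = 0) → R.card ≤
      (Finset.univ.filter fun τ : L →+* ℝ => τ.comp (algebraMap F L) = σ).card := by
    intro R hR
    have h1 : ∀ e : ℝ, ∃ τ : L →+* ℝ, e ∈ R → ∀ p : F[X], τ (aeval θ p) = (p.map σ).eval e := by
      intro e
      by_cases he : e ∈ R
      · obtain ⟨τ, hτ⟩ := emb h σ (hR e he)
        exact ⟨τ, fun _ => hτ⟩
      · by_cases hne : Nonempty (L →+* ℝ)
        · exact ⟨hne.some, fun h => absurd h he⟩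
        · exfalso
          apply hne
          obtain ⟨a, ha⟩ := real_root _ hm hd
          obtain ⟨τ, -⟩ := emb h σ ha
          exact ⟨τ⟩
    choose τ hτ using h1
    refine Finset.card_le_card_of_injOn τ ?_ ?_
    · intro e he
      rw [Finset.coe_filter, Set.mem_setOf_eq]
      refine ⟨Finset.mem_univ _, ?_⟩
      ext c
      have h2 := hτ e he (C c)
      rw [aeval_C, map_C, eval_C] at h2
      exact h2
    · intro e he e' he' hee
      have h2 := hτ e he X
      have h3 := hτ e' he' X
      rw [map_X, eval_X] at h2 h3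
      rw [← h2, ← h3, hee]
  split_ifs with hT
  · obtain ⟨a, b, c, hp⟩ := hT
    have hab := hp.ab
    have hbc := hp.bc
    have h1 : ({a, b, c} : Finset ℝ).card = 3 := by
      rw [Finset.card_eq_three]
      exact ⟨a, b, c, hab.ne, (hab.trans hbc).ne, hbc.ne, rfl⟩
    rw [← h1]
    apply key
    intro e he
    rw [hp.eq]
    simp only [Finset.mem_insert, Finset.mem_singleton] at he
    rcases he with rfl | rfl | rfl <;> simp
  · obtain ⟨a, ha⟩ := real_root _ hm hd
    have h1 : ({a} : Finset ℝ).card = 1 := Finset.card_singleton a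
    rw [← h1]
    apply key
    intro e he
    rw [Finset.mem_singleton] at he
    subst he
    exact ha

theorem count (h : IsGen 1 f θ) :
    (Finset.univ.filter fun σ : F →+* ℝ => Tri f σ).card + (Module.finrank ℚ F +
      Fintype.card (InfinitePlace F)) ≤ Fintype.card (InfinitePlace L) := by
  haveI := fin h
  have h1 : Fintype.card (L →+* ℝ) = ∑ σ : F →+* ℝ,
      (Finset.univ.filter fun τ : L →+* ℝ => τ.comp (algebraMap F L) = σ).card := by
    rw [← Finset.card_univ]
    exact Finset.card_eq_sum_card_fiberwise fun τ _ => Finset.mem_univ _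
  have h2 : ∑ σ : F →+* ℝ, (if Tri f σ then 3 else 1) =
      Fintype.card (F →+* ℝ) + 2 * (Finset.univ.filter fun σ : F →+* ℝ => Tri f σ).card := by
    have h3 : ∀ σ : F →+* ℝ, (if Tri f σ then 3 else 1) = 1 + 2 * (if Tri f σ then 1 else 0) := by
      intro σ; split_ifs <;> rfl
    rw [Finset.sum_congr rfl fun σ _ => h3 σ, Finset.sum_add_distrib, ← Finset.mul_sum,
      Finset.sum_boole, Finset.sum_const, Finset.card_univ, smul_eq_mul, mul_one, Nat.cast_id]
  have h3 : ∑ σ : F →+* ℝ, (if Tri f σ then 3 else 1) ≤ Fintype.card (L →+* ℝ) := by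
    rw [h1]
    exact Finset.sum_le_sum fun σ _ => fib h σ
  rw [h2, card_real, card_real] at h3
  have h4 := InfinitePlace.card_add_two_mul_card_eq_rank F
  have h5 := InfinitePlace.card_add_two_mul_card_eq_rank L
  have h6 := InfinitePlace.card_eq_nrRealPlaces_add_nrComplexPlaces F
  have h7 := InfinitePlace.card_eq_nrRealPlaces_add_nrComplexPlaces L
  have h8 : Module.finrank ℚ F * Module.finrank F L = Module.finrank ℚ L :=
    Module.finrank_mul_finrank ℚ F L
  rw [h.rank] at h8
  omega

end gen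

/-- **REAL.** -/
theorem real : S_REAL := by
  intro F L _ _ _ _ _ f θ hG hc
  haveI := fin hG
  choose τ h1 h2 using place hG
  let Pn : (F →+* ℝ) → L → Prop := fun σ c => c ≠ 0 ∧ IsSquare (Algebra.norm F c) ∧ τ σ c < 0
  let Cn : (F →+* ℝ) → Finset L := fun σ => if H : ∃ c, Pn σ c then {1, H.choose} else {1}
  have hone : (1 : L) ≠ 0 ∧ IsSquare (Algebra.norm F (1 : L)) := ⟨one_ne_zero, by
    rw [map_one]; exact IsSquare.one⟩
  refine ⟨Cn, ?_, ?_⟩
  · have h3 : ∀ σ : F →+* ℝ, (Cn σ).card ≤ if Tri f σ then 2 else 1 := by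
      intro σ
      by_cases H : ∃ c, Pn σ c
      · have h4 : Cn σ = {1, H.choose} := dif_pos H
        have h5 : Tri f σ := by
          by_contra hT
          obtain ⟨c, hc1, hc2, hc3⟩ := H
          exact absurd (h2 σ hT c hc1 hc2) (not_lt.2 hc3.le)
        rw [h4, if_pos h5]
        exact Finset.card_le_two
      · have h4 : Cn σ = {1} := dif_neg H
        rw [h4, Finset.card_singleton]
        split_ifs <;> norm_num
    have h4 : ∏ σ : F →+* ℝ, (Cn σ).card ≤
        2 ^ (Finset.univ.filter fun σ : F →+* ℝ => Tri f σ).card := by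
      refine (Finset.prod_le_prod' fun σ _ => h3 σ).trans ?_
      rw [Finset.prod_ite, Finset.prod_const, Finset.prod_const_one, mul_one]
    calc _ ≤ 2 ^ (Finset.univ.filter fun σ : F →+* ℝ => Tri f σ).card *
          2 ^ (Module.finrank ℚ F + Fintype.card (InfinitePlace F)) := Nat.mul_le_mul_right _ h4
      _ = 2 ^ ((Finset.univ.filter fun σ : F →+* ℝ => Tri f σ).card +
          (Module.finrank ℚ F + Fintype.card (InfinitePlace F))) := by rw [← pow_add]
      _ ≤ _ := Nat.pow_le_pow_right (by norm_num) (count hG)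
  · intro σ
    constructor
    · intro c hc
      by_cases H : ∃ c, Pn σ c
      · have h4 : Cn σ = {1, H.choose} := dif_pos H
        rw [h4, Finset.mem_insert, Finset.mem_singleton] at hc
        rcases hc with rfl | rfl
        · exact hone
        · exact ⟨H.choose_spec.1, H.choose_spec.2.1⟩
      · have h4 : Cn σ = {1} := dif_neg H
        rw [h4, Finset.mem_singleton] at hc
        rw [hc]
        exact hone
    · intro α hα hsq
      have hτα : τ σ α ≠ 0 := by rwa [Ne, map_eq_zero]
      rcases lt_or_gt_of_ne hτα with hlt | hgt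
      · have H : ∃ c, Pn σ c := ⟨α, hα, hsq, hlt⟩
        have h4 : Cn σ = {1, H.choose} := dif_pos H
        obtain ⟨h5, h6, h7⟩ := H.choose_spec
        refine ⟨H.choose, ?_, ?_⟩
        · rw [h4, Finset.mem_insert, Finset.mem_singleton]
          exact Or.inr rfl
        · refine h1 σ _ (mul_ne_zero hα h5) ?_ ?_
          · rw [map_mul]
            exact hsq.mul h6
          · rw [map_mul]
            exact mul_pos_of_neg_of_neg hlt h7
      · refine ⟨1, ?_, ?_⟩
        · by_cases H : ∃ c, Pn σ c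
          · have h4 : Cn σ = {1, H.choose} := dif_pos H
            rw [h4]
            exact Finset.mem_insert_self _ _
          · have h4 : Cn σ = {1} := dif_neg H
            rw [h4]
            exact Finset.mem_singleton_self _
        · rw [mul_one]
          exact h1 σ _ hα hsq hgt

end Pool.Agent.H18PR
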