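import Pool.Agent.H68K.PR.StmU
import Pool.Agent.H64.PR.Unb
import Pool.Agent.N490.PF.Pts

/-!
# Few points of a residue class in a thin shell (S_SHL)
-/

set_option autoImplicit false
set_option linter.all false

open NumberField NumberField.InfinitePlace
open scoped Classical

namespace Pool.Agent.H18PR

open Pool.Agent.N783.PF Pool.Agent.H68K.PR

/-- arbitrary boxes -/
theorem box (F : Type) [Field F] [NumberField F] : ∃ C₁ : ℝ, 0 < C₁ ∧
    ∀ (N : ℕ) (τ : InfinitePlace F → ℝ), 0 < N → (∀ v, 0 < τ v) → ∀ a : 𝓞 F,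
      {x : 𝓞 F | x - a ∈ sp F N ∧ ∀ v : InfinitePlace F, v (x : F) ≤ τ v}.Finite ∧
      ({x : 𝓞 F | x - a ∈ sp F N ∧ ∀ v : InfinitePlace F, v (x : F) ≤ τ v}.ncard : ℝ) ≤
        C₁ * ((∏ v, τ v ^ v.mult) / N ^ Module.finrank ℚ F + 1) := by
  obtain ⟨C, hC, hU⟩ := Pool.Agent.H64.PR.unb F
  obtain ⟨-, D, hD, -, hP⟩ := Pool.Agent.N490.PF.pts F
  set d := Module.finrank ℚ F with hd
  have hd0 : 0 < d := Module.finrank_pos
  refine ⟨D * C ^ d, by positivity, fun N τ hN hτ a => ?_⟩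
  have hV : 0 < ∏ v, τ v ^ v.mult := Finset.prod_pos fun v _ => pow_pos (hτ v) _
  set V := ∏ v, τ v ^ v.mult with hVd
  set l : ℝ := V ^ (1 / (d : ℝ)) with hl
  have hl0 : 0 < l := Real.rpow_pos_of_pos hV _
  have hld : l ^ d = V := by
    rw [hl, ← Real.rpow_natCast, ← Real.rpow_mul hV.le, one_div,
      inv_mul_cancel₀ (by exact_mod_cast hd0.ne'), Real.rpow_one]
  obtain ⟨u, hu⟩ := hU τ hτ l hl0 hld
  have hC0 : 0 < C := by linarith
  have hsp : sp F N ≠ ⊥ := by
    rw [Ne, Ideal.span_singleton_eq_bot]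
    exact_mod_cast hN.ne'
  obtain ⟨h1, h2⟩ := hP (sp F N) ((u : 𝓞 F) * a) (C * l) hsp (by positivity)
  have hmap : ∀ x ∈ {x : 𝓞 F | x - a ∈ sp F N ∧ ∀ v : InfinitePlace F, v (x : F) ≤ τ v},
      (u : 𝓞 F) * x ∈ {x : 𝓞 F | x - (u : 𝓞 F) * a ∈ sp F N ∧ Bd (x : F) (C * l)} := by
    rintro x ⟨hx1, hx2⟩
    refine ⟨?_, fun σ => ?_⟩
    · rw [← mul_sub]
      exact Ideal.mul_mem_left _ _ hx1
    · rw [← InfinitePlace.apply]
      have h3 := (hu (InfinitePlace.mk σ)).2
      have h4 := hx2 (InfinitePlace.mk σ)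
      have h5 : (((u : 𝓞 F) * x : 𝓞 F) : F) = ((u : 𝓞 F) : F) * (x : F) := by
        push_cast; rfl
      rw [h5, map_mul]
      exact (mul_le_mul_of_nonneg_left h4 (apply_nonneg _ _)).trans h3
  have hinj : Set.InjOn (fun x : 𝓞 F => (u : 𝓞 F) * x)
      {x : 𝓞 F | x - a ∈ sp F N ∧ ∀ v : InfinitePlace F, v (x : F) ≤ τ v} :=
    fun x _ y _ h => u.isUnit.mul_left_cancel h
  refine ⟨Set.Finite.of_finite_image (h1.subset (Set.image_subset_iff.2 hmap)) hinj, ?_⟩
  have h3 := Set.ncard_le_ncard_of_injOn _ hmap hinj h1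
  have h4 : (Ideal.absNorm (sp F N) : ℝ) = (N : ℝ) ^ d := by
    have : Ideal.absNorm (sp F N) = N ^ d := by
      have e1 : sp F N = Ideal.span {((N : ℤ) : 𝓞 F)} := by
        rw [Int.cast_natCast]
      rw [e1, Ideal.absNorm_span_singleton]
      have e2 : ((N : ℤ) : 𝓞 F) = algebraMap ℤ (𝓞 F) (N : ℤ) := by simp
      rw [e2, Algebra.norm_algebraMap, RingOfIntegers.rank, Int.natAbs_pow, Int.natAbs_natCast]
    rw [this]
    push_cast
    rfl
  have hNd : (0 : ℝ) < (N : ℝ) ^ d := pow_pos (by exact_mod_cast hN) _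
  calc (({x : 𝓞 F | x - a ∈ sp F N ∧ ∀ v : InfinitePlace F, v (x : F) ≤ τ v}.ncard : ℕ) : ℝ)
      ≤ _ := by exact_mod_cast h3
    _ ≤ _ := h2
    _ = D * (C ^ d * (V / (N : ℝ) ^ d) + 1) := by
        rw [h4, mul_pow, hld]
        ring
    _ ≤ D * C ^ d * (V / (N : ℝ) ^ d + 1) := by
        have h5 : 1 ≤ C ^ d := one_le_pow₀ hC
        rw [mul_assoc]
        refine mul_le_mul_of_nonneg_left ?_ hD.le
        rw [mul_add, mul_one]
        linarith

/-- sets all of whose differences lie in a box -/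
theorem dif (F : Type) [Field F] [NumberField F] : ∃ C₁ : ℝ, 0 < C₁ ∧
    ∀ (N : ℕ) (τ : InfinitePlace F → ℝ), 0 < N → (∀ v, 0 < τ v) → ∀ (a : 𝓞 F) (E : Set (𝓞 F)),
      (∀ x ∈ E, x - a ∈ sp F N) →
      (∀ x ∈ E, ∀ y ∈ E, ∀ v : InfinitePlace F, v ((x : F) - (y : F)) ≤ τ v) →
      (E.ncard : ℝ) ≤ C₁ * ((∏ v, τ v ^ v.mult) / N ^ Module.finrank ℚ F + 1) := by
  obtain ⟨C₁, hC, hB⟩ := box F
  refine ⟨C₁, hC, fun N τ hN hτ a E h1 h2 => ?_⟩
  obtain ⟨h3, h4⟩ := hB N τ hN hτ 0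
  rcases E.eq_empty_or_nonempty with hE | ⟨x₀, hx₀⟩
  · rw [hE, Set.ncard_empty, Nat.cast_zero]
    have : 0 < ∏ v, τ v ^ v.mult := Finset.prod_pos fun v _ => pow_pos (hτ v) _
    positivity
  · have h5 : E.ncard ≤ {x : 𝓞 F | x - 0 ∈ sp F N ∧ ∀ v : InfinitePlace F, v (x : F) ≤ τ v}.ncard := by
      refine Set.ncard_le_ncard_of_injOn (fun x => x - x₀) (fun x hx => ⟨?_, fun v => ?_⟩)
        (fun x _ y _ h => sub_left_injective h) h3
      · have := (sp F N).sub_mem (h1 x hx) (h1 x₀ hx₀)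
        rw [sub_zero]
        rwa [sub_sub_sub_cancel_right] at this
      · have := h2 x hx x₀ hx₀ v
        have e : ((x - x₀ : 𝓞 F) : F) = (x : F) - (x₀ : F) := by push_cast; rfl
        rw [e]
        exact this
    exact (by exact_mod_cast h5 : (E.ncard : ℝ) ≤ _).trans h4

/-- sets divided into pieces -/
theorem pcs {α ι : Type*} [Fintype ι] (E : Set α) (f : α → ι) (B : ℝ) 
    (h : ∀ i, ((E ∩ f ⁻¹' {i}).ncard : ℝ) ≤ B) : (E.ncard : ℝ) ≤ Fintype.card ι * B := by
  by_cases hE : E.Finite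
  · have h1 : E.ncard ≤ ∑ i, (E ∩ f ⁻¹' {i}).ncard := by
      have e : E ⊆ ⋃ i ∈ (Finset.univ : Finset ι), (E ∩ f ⁻¹' {i}) := by
        intro x hx
        simp only [Set.mem_iUnion]
        exact ⟨f x, Finset.mem_univ _, hx, rfl⟩
      calc E.ncard ≤ (⋃ i ∈ (Finset.univ : Finset ι), (E ∩ f ⁻¹' {i})).ncard :=
            Set.ncard_le_ncard e (Set.Finite.biUnion (Finset.finite_toSet _) fun i _ =>
              hE.subset Set.inter_subset_left)
        _ ≤ _ := Finset.set_ncard_biUnion_le _ _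
    calc (E.ncard : ℝ) ≤ ∑ i, ((E ∩ f ⁻¹' {i}).ncard : ℝ) := by exact_mod_cast h1
      _ ≤ ∑ i : ι, B := Finset.sum_le_sum fun i _ => h i
      _ = _ := by rw [Finset.sum_const, Finset.card_univ, nsmul_eq_mul]
  · rw [Set.Infinite.ncard hE, Nat.cast_zero]
    by_cases hι : Nonempty ι
    · obtain ⟨i⟩ := hι
      have := (Nat.cast_nonneg _).trans (h i)
      positivity
    · rw [not_nonempty_iff] at hι
      simp

/-- two points of a shell with near arguments are near -/
theorem near (z w : ℂ) (s η θ : ℝ) (hs : 0 < s) (hη : 0 ≤ η) (hθ : 0 ≤ θ)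
    (hz : ‖z‖ ≤ s) (hz' : (1 - η) * s ≤ ‖z‖) (hw : ‖w‖ ≤ s) (hw' : (1 - η) * s ≤ ‖w‖)
    (harg : |z.arg - w.arg| ≤ θ) : ‖z - w‖ ≤ (η + θ) * s := by
  have h1 : z - w = ((‖z‖ - ‖w‖ : ℝ) : ℂ) * Complex.exp (Complex.arg z * Complex.I) +
      (‖w‖ : ℂ) * (Complex.exp (Complex.arg w * Complex.I) *
        (Complex.exp (Complex.I * ((z.arg - w.arg : ℝ) : ℂ)) - 1)) := by
    have e1 := Complex.norm_mul_exp_arg_mul_I z
    have e2 := Complex.norm_mul_exp_arg_mul_I w
    have e3 : Complex.exp (Complex.arg w * Complex.I) *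
        (Complex.exp (Complex.I * ((z.arg - w.arg : ℝ) : ℂ)) - 1) =
        Complex.exp (Complex.arg z * Complex.I) - Complex.exp (Complex.arg w * Complex.I) := by
      rw [mul_sub, mul_one, ← Complex.exp_add]
      congr 2
      push_cast
      ring
    rw [e3]
    conv_lhs => rw [← e1, ← e2]
    push_cast
    ring
  rw [h1]
  refine (norm_add_le _ _).trans ?_
  rw [norm_mul, norm_mul, norm_mul, Complex.norm_exp_ofReal_mul_I, Complex.norm_exp_ofReal_mul_I,
    Complex.norm_real, Complex.norm_real, Real.norm_eq_abs, Real.norm_eq_abs, mul_one, one_mul,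
    abs_of_nonneg (norm_nonneg w)]
  have h2 : |‖z‖ - ‖w‖| ≤ η * s := by
    rw [abs_le]
    constructor <;> nlinarith
  have h3 : ‖Complex.exp (Complex.I * ((z.arg - w.arg : ℝ) : ℂ)) - 1‖ ≤ θ := by
    refine (Real.norm_exp_I_mul_ofReal_sub_one_le).trans ?_
    rw [Real.norm_eq_abs]
    exact harg
  have h4 : ‖w‖ * ‖Complex.exp (Complex.I * ((z.arg - w.arg : ℝ) : ℂ)) - 1‖ ≤ s * θ :=
    mul_le_mul hw h3 (norm_nonneg _) hs.le
  nlinarith

/-- the number of pieces -/
theorem cut (F : Type) [Field F] [NumberField F] (v₀ : InfinitePlace F) (η : ℝ) (hη : 0 < η)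
    (hη1 : η ≤ 1) : ∃ (K : ℕ) (f : F → Fin K), (K : ℝ) * η ^ v₀.mult ≤ 3 * η ∧
      ∀ s : ℝ, 0 < s → ∀ x y : F, f x = f y → v₀ x ≤ s → (1 - η) * s ≤ v₀ x → v₀ y ≤ s →
        (1 - η) * s ≤ v₀ y → v₀ (x - y) ≤ 8 * η * s := by
  have hπ : Real.pi < 3.15 := Real.pi_lt_d2
  have hπ0 := Real.pi_pos
  by_cases hv : v₀.IsReal
  · refine ⟨2, fun x => if 0 ≤ (v₀.embedding x).re then 0 else 1, ?_, ?_⟩
    · rw [InfinitePlace.mult, if_pos hv, pow_one]
      push_cast
      linarith
    · intro s hs x y hxy h1 h2 h3 h4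
      simp only [← InfinitePlace.norm_embedding_eq] at h1 h2 h3 h4 ⊢
      rw [map_sub]
      have hr : ∀ x : F, (v₀.embedding x).arg = if 0 ≤ (v₀.embedding x).re then 0 else Real.pi := by
        intro x
        rw [← InfinitePlace.embedding_of_isReal_apply hv x]
        simp only [Complex.ofReal_re]
        split_ifs with h
        · exact Complex.arg_ofReal_of_nonneg h
        · exact Complex.arg_ofReal_of_neg (not_le.1 h)
      have harg : (v₀.embedding x).arg = (v₀.embedding y).arg := by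
        rw [hr x, hr y]
        dsimp only at hxy
        split_ifs at hxy ⊢ <;> first | rfl | exact absurd hxy (by decide)
      have := near _ _ s η 0 hs hη.le le_rfl h1 h2 h3 h4 (by rw [harg]; simp)
      nlinarith [mul_pos hη hs]
  · have hK : 1 / η ≤ (⌈1 / η⌉₊ : ℝ) := Nat.le_ceil _
    have hK1 : (⌈1 / η⌉₊ : ℝ) < 1 / η + 1 := Nat.ceil_lt_add_one (by positivity)
    set K := ⌈1 / η⌉₊ with hKd
    have hK0 : (0 : ℝ) < K := lt_of_lt_of_le (by positivity) hK
    set g : F → ℕ := fun x => ⌊((v₀.embedding x).arg + Real.pi) / (2 * Real.pi) * K⌋₊ with hg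
    have hpos : ∀ x : F, 0 ≤ ((v₀.embedding x).arg + Real.pi) / (2 * Real.pi) * K := by
      intro x
      have := Complex.neg_pi_lt_arg (v₀.embedding x)
      have h2 : 0 ≤ (v₀.embedding x).arg + Real.pi := by linarith
      positivity
    have hgK : ∀ x, g x < K + 1 := by
      intro x
      rw [hg]
      dsimp only
      rw [Nat.floor_lt (hpos x)]
      push_cast
      have h1 : ((v₀.embedding x).arg + Real.pi) / (2 * Real.pi) ≤ 1 := by
        rw [div_le_one (by positivity)]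
        have := Complex.arg_le_pi (v₀.embedding x)
        linarith
      nlinarith
    refine ⟨K + 1, fun x => ⟨g x, hgK x⟩, ?_, ?_⟩
    · rw [InfinitePlace.mult, if_neg hv]
      push_cast
      have h1 : (K : ℝ) * η ≤ 1 + η := by
        have : (K : ℝ) * η ≤ (1 / η + 1) * η := mul_le_mul_of_nonneg_right hK1.le hη.le
        have e : (1 / η + 1) * η = 1 + η := by field_simp
        rwa [e] at this
      nlinarith
    · intro s hs x y hxy h1 h2 h3 h4
      simp only [← InfinitePlace.norm_embedding_eq] at h1 h2 h3 h4 ⊢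
      rw [map_sub]
      have hxy' : g x = g y := by
        have := congrArg Fin.val hxy
        exact this
      have harg : |(v₀.embedding x).arg - (v₀.embedding y).arg| ≤ 7 * η := by
        have hx1 := Nat.floor_le (hpos x)
        have hx2 := Nat.lt_floor_add_one (((v₀.embedding x).arg + Real.pi) / (2 * Real.pi) * K)
        have hy1 := Nat.floor_le (hpos y)
        have hy2 := Nat.lt_floor_add_one (((v₀.embedding y).arg + Real.pi) / (2 * Real.pi) * K)
        have hgx : (⌊((v₀.embedding x).arg + Real.pi) / (2 * Real.pi) * K⌋₊ : ℝ) = g x := rfl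
        have hgy : (⌊((v₀.embedding y).arg + Real.pi) / (2 * Real.pi) * K⌋₊ : ℝ) = g x := by
          rw [hxy']
        rw [hgx] at hx1 hx2
        rw [hgy] at hy1 hy2
        have e : ∀ t : ℝ, (t + Real.pi) / (2 * Real.pi) * K = t * (K / (2 * Real.pi)) + K / 2 := by
          intro t
          field_simp
        rw [e] at hx1 hx2 hy1 hy2
        have h5 : |(v₀.embedding x).arg - (v₀.embedding y).arg| * (K / (2 * Real.pi)) ≤ 1 := by
          have hc : 0 ≤ (K : ℝ) / (2 * Real.pi) := by positivity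
          rw [← abs_of_nonneg hc, ← abs_mul, abs_le]
          constructor <;> nlinarith
        have h6 : 1 / (7 * η) ≤ K / (2 * Real.pi) := by
          rw [div_le_div_iff₀ (by positivity) (by positivity)]
          have : 1 ≤ (K : ℝ) * η := by
            have := mul_le_mul_of_nonneg_right hK hη.le
            rwa [one_div, inv_mul_cancel₀ hη.ne'] at this
          nlinarith
        have h7 : |(v₀.embedding x).arg - (v₀.embedding y).arg| * (1 / (7 * η)) ≤ 1 :=
          (mul_le_mul_of_nonneg_left h6 (abs_nonneg _)).trans h5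
        rw [mul_one_div, div_le_one (by positivity)] at h7
        exact h7
      have := near _ _ s η (7 * η) hs hη.le (by positivity) h1 h2 h3 h4 harg
      linarith

theorem shl : S_SHL := by
  intro F _ _
  obtain ⟨C₁, hC₁, hB⟩ := box F
  obtain ⟨C₂, hC₂, hD⟩ := dif F
  set d := Module.finrank ℚ F with hd
  set r := Fintype.card (InfinitePlace F) with hr
  have hr0 : 0 < r := Fintype.card_pos
  refine ⟨C₁ * 2 + r * (3 * (C₂ * (8 ^ d + 1))), by positivity, fun N η hN hη hη1 => ?_⟩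
  have hNd : (0 : ℝ) < (N : ℝ) ^ d := pow_pos (by exact_mod_cast hN) _
  refine ⟨(N : ℝ) ^ d / η ^ 2, fun σ hσ hV a => ?_⟩
  set V := ∏ v, σ v ^ v.mult with hVd
  have hV0 : 0 < V := Finset.prod_pos fun v _ => pow_pos (hσ v) _
  have hV1 : 1 ≤ η ^ 2 * (V / (N : ℝ) ^ d) := by
    rw [div_le_iff₀ (by positivity)] at hV
    rw [← mul_div_assoc, le_div_iff₀ hNd]
    linarith
  have hq : 0 < V / (N : ℝ) ^ d := by positivity
  have hV2 : 1 ≤ V / (N : ℝ) ^ d := by
    have : η ^ 2 ≤ 1 := pow_le_one₀ hη.le hη1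
    nlinarith
  obtain ⟨h1, h2⟩ := hB N σ hN hσ a
  refine ⟨h1, ?_, ?_⟩
  · refine h2.trans ?_
    rw [mul_div_assoc]
    have h3 : 0 ≤ r * (3 * (C₂ * (8 ^ d + 1))) * (V / (N : ℝ) ^ d) := by positivity
    have h4 : C₁ * (V / (N : ℝ) ^ d + 1) ≤ C₁ * 2 * (V / (N : ℝ) ^ d) := by nlinarith
    linarith
  · -- one place
    have hone : ∀ v₀ : InfinitePlace F,
        (({x : 𝓞 F | x - a ∈ sp F N ∧ (∀ v : InfinitePlace F, v (x : F) ≤ σ v) ∧
          (1 - η) * σ v₀ < v₀ (x : F)}.ncard : ℕ) : ℝ) ≤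
          3 * (C₂ * (8 ^ d + 1)) * (η * (V / (N : ℝ) ^ d)) := by
      intro v₀
      obtain ⟨K, f, hK, hf⟩ := cut F v₀ η hη hη1
      set τ : InfinitePlace F → ℝ := fun v => 8 * (if v = v₀ then η else 1) * σ v with hτ
      have hτ0 : ∀ v, 0 < τ v := by
        intro v
        have := hσ v
        rw [hτ]
        dsimp only
        split_ifs <;> positivity
      have hprod : ∏ v, τ v ^ v.mult = 8 ^ d * η ^ v₀.mult * V := by
        rw [hτ]
        dsimp only
        simp_rw [mul_pow]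
        rw [Finset.prod_mul_distrib, Finset.prod_mul_distrib, ← hVd]
        congr 2
        · rw [Finset.prod_pow_eq_pow_sum, InfinitePlace.sum_mult_eq]
        · rw [Finset.prod_eq_single v₀]
          · rw [if_pos rfl]
          · intro b _ hb
            rw [if_neg hb, one_pow]
          · intro h
            exact absurd (Finset.mem_univ _) h
      have hpc := pcs {x : 𝓞 F | x - a ∈ sp F N ∧ (∀ v : InfinitePlace F, v (x : F) ≤ σ v) ∧
          (1 - η) * σ v₀ < v₀ (x : F)} (fun x : 𝓞 F => f (x : F))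
          (C₂ * ((∏ v, τ v ^ v.mult) / (N : ℝ) ^ d + 1)) (fun i => by
        refine hD N τ hN hτ0 a _ (fun x hx => hx.1.1) ?_
        rintro x ⟨hx, hxi⟩ y ⟨hy, hyi⟩ v
        by_cases hv : v = v₀
        · subst hv
          have e : τ v = 8 * η * σ v := by
            rw [hτ]
            dsimp only
            rw [if_pos rfl]
          rw [e]
          refine hf (σ v) (hσ v) _ _ ?_ (hx.2.1 v) hx.2.2.le (hy.2.1 v) hy.2.2.le
          have e1 : f (x : F) = i := hxi
          have e2 : f (y : F) = i := hyi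
          rw [e1, e2]
        · have e : τ v = 8 * σ v := by
            rw [hτ]
            dsimp only
            rw [if_neg hv, mul_one]
          rw [e]
          have h3 : v ((x : F) - (y : F)) ≤ v (x : F) + v (y : F) := by
            simp only [← InfinitePlace.norm_embedding_eq]
            rw [map_sub]
            exact norm_sub_le _ _
          have h4 := hx.2.1 v
          have h5 := hy.2.1 v
          have h6 := hσ v
          linarith)
      rw [Fintype.card_fin] at hpc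
      refine hpc.trans ?_
      rw [hprod]
      have hm : η ^ 2 ≤ η ^ v₀.mult := by
        apply pow_le_pow_of_le_one hη.le hη1
        rw [InfinitePlace.mult]
        split_ifs <;> omega
      have h3 : 1 ≤ η ^ v₀.mult * (V / (N : ℝ) ^ d) :=
        hV1.trans (mul_le_mul_of_nonneg_right hm hq.le)
      have h4 : C₂ * (8 ^ d * η ^ v₀.mult * V / (N : ℝ) ^ d + 1) ≤
          C₂ * (8 ^ d + 1) * (η ^ v₀.mult * (V / (N : ℝ) ^ d)) := by
        rw [mul_assoc C₂]
        refine mul_le_mul_of_nonneg_left ?_ hC₂.le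
        rw [add_mul, one_mul]
        have e : 8 ^ d * η ^ v₀.mult * V / (N : ℝ) ^ d = 8 ^ d * (η ^ v₀.mult * (V / (N : ℝ) ^ d)) := by
          ring
        rw [e]
        linarith
      calc (K : ℝ) * (C₂ * (8 ^ d * η ^ v₀.mult * V / (N : ℝ) ^ d + 1))
          ≤ K * (C₂ * (8 ^ d + 1) * (η ^ v₀.mult * (V / (N : ℝ) ^ d))) :=
            mul_le_mul_of_nonneg_left h4 (Nat.cast_nonneg _)
        _ = (K * η ^ v₀.mult) * (C₂ * (8 ^ d + 1) * (V / (N : ℝ) ^ d)) := by ring
        _ ≤ (3 * η) * (C₂ * (8 ^ d + 1) * (V / (N : ℝ) ^ d)) :=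
            mul_le_mul_of_nonneg_right hK (by positivity)
        _ = _ := by ring
    have hsub : {x : 𝓞 F | x - a ∈ sp F N ∧ (∀ v : InfinitePlace F, v (x : F) ≤ σ v) ∧
        ∃ v : InfinitePlace F, (1 - η) * σ v < v (x : F)} ⊆
        ⋃ v₀ ∈ (Finset.univ : Finset (InfinitePlace F)),
          {x : 𝓞 F | x - a ∈ sp F N ∧ (∀ v : InfinitePlace F, v (x : F) ≤ σ v) ∧
            (1 - η) * σ v₀ < v₀ (x : F)} := by
      rintro x ⟨hx1, hx2, v, hx3⟩
      simp only [Set.mem_iUnion]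
      exact ⟨v, Finset.mem_univ _, hx1, hx2, hx3⟩
    have hle := (Set.ncard_le_ncard hsub (Set.Finite.biUnion (Finset.finite_toSet _) fun v₀ _ =>
      h1.subset fun x hx => ⟨hx.1, hx.2.1⟩)).trans (Finset.set_ncard_biUnion_le _ _)
    calc (({x : 𝓞 F | x - a ∈ sp F N ∧ (∀ v : InfinitePlace F, v (x : F) ≤ σ v) ∧
        ∃ v : InfinitePlace F, (1 - η) * σ v < v (x : F)}.ncard : ℕ) : ℝ)
        ≤ ∑ v₀ : InfinitePlace F, (({x : 𝓞 F | x - a ∈ sp F N ∧
          (∀ v : InfinitePlace F, v (x : F) ≤ σ v) ∧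
            (1 - η) * σ v₀ < v₀ (x : F)}.ncard : ℕ) : ℝ) := by exact_mod_cast hle
      _ ≤ ∑ v₀ : InfinitePlace F, 3 * (C₂ * (8 ^ d + 1)) * (η * (V / (N : ℝ) ^ d)) :=
          Finset.sum_le_sum fun v₀ _ => hone v₀
      _ = r * (3 * (C₂ * (8 ^ d + 1))) * η * V / (N : ℝ) ^ d := by
          rw [Finset.sum_const, Finset.card_univ, nsmul_eq_mul, ← hr]
          ring
      _ ≤ (C₁ * 2 + r * (3 * (C₂ * (8 ^ d + 1)))) * η * V / (N : ℝ) ^ d := by
          have h5 : 0 ≤ C₁ * 2 * (η * V / (N : ℝ) ^ d) := by positivity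
          have e : (C₁ * 2 + r * (3 * (C₂ * (8 ^ d + 1)))) * η * V / (N : ℝ) ^ d =
              C₁ * 2 * (η * V / (N : ℝ) ^ d) + r * (3 * (C₂ * (8 ^ d + 1))) * η * V / (N : ℝ) ^ d := by
            ring
          rw [e]
          linarith

end Pool.Agent.H18PR
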