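import Pool.Agent.N2.PQ.Cant

/-!
# Reduction of divisors for an irreducible cubic polynomial (project PR of helper68)

By helper18.
-/

set_option autoImplicit false
set_option linter.all false

open Polynomial
open scoped Classical

namespace Pool.Agent.H18PR

open Pool.Agent.N783.PQ (LocIm S_CANT)

variable {K : Type} [Field K]

/-- The class comes from one point. -/
def P1 (f h : K[X]) : Prop := (∃ g : K[X], f ∣ h - g ^ 2) ∨
  ∃ x y : K, y ≠ 0 ∧ y ^ 2 = f.eval x ∧ ∃ g : K[X], f ∣ (C x - X) * h - g ^ 2

/-- `u` with sign. -/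
noncomputable def sgn (u : K[X]) : K[X] := (-1) ^ u.natDegree * u

theorem mk_iff {f a b : K[X]} : f ∣ a - b ↔ AdjoinRoot.mk f a = AdjoinRoot.mk f b := by
  rw [← AdjoinRoot.mk_eq_zero, map_sub, sub_eq_zero]

theorem coprime_unit {a b : K[X]} (h : IsUnit a) : IsCoprime a b := by
  obtain ⟨c, hc⟩ := h.exists_left_inv
  exact ⟨c, 0, by rw [hc]; ring⟩

theorem sgn_coprime {u f : K[X]} (h : IsCoprime u f) : IsCoprime (sgn u) f := by
  refine IsCoprime.mul_left ?_ h
  have h1 : IsUnit ((-1 : K[X]) ^ u.natDegree) := (isUnit_one.neg).pow _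
  exact coprime_unit h1

theorem step {f h u u' s t : K[X]} {c : K} (hc : c ≠ 0) (hu : IsCoprime u f)
    (h1 : f ∣ h * sgn u - s ^ 2) (h2 : f ∣ C c ^ 2 * sgn u * sgn u' - t ^ 2) :
    ∃ s' : K[X], f ∣ h * sgn u' - s' ^ 2 := by
  obtain ⟨a, b, hab⟩ := sgn_coprime hu
  refine ⟨s * t * a * C c⁻¹, ?_⟩
  rw [mk_iff] at h1 h2 ⊢
  have h3 : AdjoinRoot.mk f a * AdjoinRoot.mk f (sgn u) = 1 := by
    have := congrArg (AdjoinRoot.mk f) hab
    rw [map_add, map_mul, map_mul, AdjoinRoot.mk_self, mul_zero, add_zero, map_one] at this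
    exact this
  have h4 : AdjoinRoot.mk f (C c) * AdjoinRoot.mk f (C c⁻¹) = 1 := by
    rw [← map_mul, ← C_mul, mul_inv_cancel₀ hc, C_1, map_one]
  simp only [map_mul, map_pow] at h1 h2 ⊢
  generalize AdjoinRoot.mk f h = H at *
  generalize AdjoinRoot.mk f (sgn u) = U at *
  generalize AdjoinRoot.mk f (sgn u') = U' at *
  generalize AdjoinRoot.mk f s = S at *
  generalize AdjoinRoot.mk f t = T at *
  generalize AdjoinRoot.mk f a = A at *
  generalize AdjoinRoot.mk f (C c) = c1 at *
  generalize AdjoinRoot.mk f (C c⁻¹) = c2 at *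
  have e1 : (S * T * A * c2) ^ 2 = S ^ 2 * T ^ 2 * A ^ 2 * c2 ^ 2 := by ring
  rw [e1, ← h1, ← h2]
  have e2 : H * U * (c1 ^ 2 * U * U') * A ^ 2 * c2 ^ 2 = H * U' * (A * U) ^ 2 * (c1 * c2) ^ 2 := by
    ring
  rw [e2, h3, h4]
  ring

theorem divide {u W : K[X]} (hu : u.Monic) (hW : W ≠ 0) (hd : u ∣ W) :
    ∃ u' : K[X], u'.Monic ∧ W = C W.leadingCoeff * (u * u') ∧
      W.natDegree = u.natDegree + u'.natDegree := by
  obtain ⟨r, hr⟩ := hd
  have hr0 : r ≠ 0 := by
    rintro rfl
    exact hW (by rw [hr, mul_zero])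
  have hl : W.leadingCoeff = r.leadingCoeff := by
    rw [hr, leadingCoeff_mul, hu.leadingCoeff, one_mul]
  have hl0 : r.leadingCoeff ≠ 0 := leadingCoeff_ne_zero.2 hr0
  refine ⟨r * C r.leadingCoeff⁻¹, ?_, ?_, ?_⟩
  · exact monic_mul_leadingCoeff_inv hr0
  · rw [hl]
    have e1 : C r.leadingCoeff * (u * (r * C r.leadingCoeff⁻¹)) =
      (C r.leadingCoeff * C r.leadingCoeff⁻¹) * (u * r) := by ring
    rw [e1, ← C_mul, mul_inv_cancel₀ hl0, C_1, one_mul, hr]
  · rw [hr, hu.natDegree_mul' hr0, natDegree_mul_C (inv_ne_zero hl0)]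

theorem mod_dvd {f u v : K[X]} (hu : u.Monic) (h : u ∣ v ^ 2 - f) : u ∣ (v %ₘ u) ^ 2 - f := by
  have h1 : (v %ₘ u) ^ 2 - f = v ^ 2 - f - u * ((v /ₘ u) * (v + v %ₘ u)) := by
    have h2 := modByMonic_add_div v u
    have h3 : v = v %ₘ u + u * (v /ₘ u) := h2.symm
    have h4 : v ^ 2 - (v %ₘ u) ^ 2 = u * ((v /ₘ u) * (v + v %ₘ u)) := by
      have h5 : u * ((v /ₘ u) * (v + v %ₘ u)) = (u * (v /ₘ u)) * (v + v %ₘ u) := by ring
      have h6 : u * (v /ₘ u) = v - v %ₘ u := by
        rw [eq_sub_iff_add_eq, add_comm]; exact h2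
      rw [h5, h6]; ring
    rw [← h4]; ring
  rw [h1]
  exact dvd_sub h (Dvd.intro _ rfl)

theorem red {f : K[X]} (hf : f.Monic) (hd : f.natDegree = 3) (hirr : Irreducible f) (n : ℕ) :
    ∀ u v s h : K[X], u.natDegree = n → u.Monic → IsCoprime u f → u ∣ v ^ 2 - f →
      f ∣ h * sgn u - s ^ 2 → P1 f h := by
  induction n using Nat.strong_induction_on with
  | _ n ih =>
    intro u v s h hn hu hco hdv hs
    rcases Nat.lt_or_ge n 2 with hn2 | hn2
    · interval_cases n
      · left
        refine ⟨s, ?_⟩
        have h1 : u = 1 := hu.natDegree_eq_zero.1 hn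
        rw [h1, sgn, natDegree_one, pow_zero, mul_one, mul_one] at hs
        exact hs
      · right
        have h1 : u = X - C (-u.coeff 0) := by
          have := hu.eq_X_add_C hn
          rw [this]
          simp
        obtain ⟨x, hx⟩ : ∃ x, x = -u.coeff 0 := ⟨_, rfl⟩
        rw [← hx] at h1
        have h2 : v.eval x ^ 2 = f.eval x := by
          rw [h1, dvd_iff_isRoot, IsRoot, eval_sub, eval_pow, sub_eq_zero] at hdv
          exact hdv
        refine ⟨x, v.eval x, ?_, h2, s, ?_⟩
        · intro h0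
          rw [h0] at h2
          have h3 : f.eval x = 0 := by rw [← h2]; ring
          rw [h1, (irreducible_X_sub_C x).coprime_iff_not_dvd, dvd_iff_isRoot] at hco
          exact hco h3
        · have h4 : h * sgn u = (C x - X) * h := by
            rw [sgn, hn, h1]; ring
          rw [← h4]
          exact hs
    · have hu1 : u ≠ 1 := by
        rintro rfl
        rw [natDegree_one] at hn
        omega
      have hdv' := mod_dvd hu hdv
      set w := v %ₘ u with hw
      have hwd : w.natDegree < n := by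
        rw [← hn]
        exact natDegree_modByMonic_lt _ hu hu1
      by_cases hfw : f ∣ w
      · -- `w` is divisible by `f`
        obtain ⟨k, hk⟩ := hfw
        have hk0 : k ≠ 0 := by
          rintro rfl
          rw [mul_zero] at hk
          rw [hk] at hdv'
          have h1 : u ∣ f := by
            have h2 : (0 : K[X]) ^ 2 - f = - f := by ring
            rw [h2] at hdv'
            exact (dvd_neg.1 hdv')
          have h3 : IsUnit u := hco.isUnit_of_dvd' dvd_rfl h1
          have h4 := natDegree_eq_zero_of_isUnit h3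
          omega
        have hf0 : f ≠ 0 := hf.ne_zero
        have hwk : w.natDegree = 3 + k.natDegree := by
          rw [hk, natDegree_mul hf0 hk0, hd]
        have hdegfk : (f * k ^ 2).natDegree = 3 + 2 * k.natDegree := by
          rw [natDegree_mul hf0 (pow_ne_zero _ hk0), hd, natDegree_pow]
        have hWd : (f * k ^ 2 - 1).natDegree = 3 + 2 * k.natDegree := by
          rw [natDegree_sub_eq_left_of_natDegree_lt (by rw [natDegree_one, hdegfk]; omega), hdegfk]
        have hWl : (f * k ^ 2 - 1).leadingCoeff = k.leadingCoeff ^ 2 := by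
          rw [leadingCoeff_sub_of_degree_lt (degree_lt_degree (by
            rw [natDegree_one, hdegfk]; omega)), leadingCoeff_mul, hf.leadingCoeff, one_mul,
            leadingCoeff_pow]
        have hW0 : f * k ^ 2 - 1 ≠ 0 := by
          intro h0
          rw [h0, natDegree_zero] at hWd
          omega
        have huW : u ∣ f * k ^ 2 - 1 := by
          have h1 : w ^ 2 - f = f * (f * k ^ 2 - 1) := by rw [hk]; ring
          rw [h1] at hdv'
          exact hco.dvd_of_dvd_mul_left hdv'
        obtain ⟨u', hu', hWu, hdeg⟩ := divide hu hW0 huW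
        rw [hWd, hn] at hdeg
        rw [hWl] at hWu
        have hkl : k.leadingCoeff ≠ 0 := leadingCoeff_ne_zero.2 hk0
        have hsg : C k.leadingCoeff ^ 2 * sgn u * sgn u' = 1 - f * k ^ 2 := by
          have e1 : (-1 : K[X]) ^ u.natDegree * (-1) ^ u'.natDegree = -1 := by
            rw [← pow_add, hn, ← hdeg]
            exact Odd.neg_one_pow ⟨k.natDegree + 1, by ring⟩
          have e2 : C k.leadingCoeff ^ 2 * sgn u * sgn u' =
              ((-1) ^ u.natDegree * (-1) ^ u'.natDegree) * (C k.leadingCoeff ^ 2 * (u * u')) := by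
            rw [sgn, sgn]; ring
          rw [e2, e1, ← C_pow, ← hWu]
          ring
        have hco' : IsCoprime u' f := by
          refine ⟨C k.leadingCoeff ^ 2 * sgn u * (-1) ^ u'.natDegree, k ^ 2, ?_⟩
          have e3 : C k.leadingCoeff ^ 2 * sgn u * (-1) ^ u'.natDegree * u' =
            C k.leadingCoeff ^ 2 * sgn u * sgn u' := by rw [sgn, sgn]; ring
          rw [e3, hsg]
          ring
        obtain ⟨s', hs'⟩ := step (u' := u') (t := 1) hkl hco hs (by
          rw [hsg]
          exact ⟨-k ^ 2, by ring⟩)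
        refine ih u'.natDegree (by omega) u' w s' h rfl hu' hco' ?_ hs'
        have h1 : w ^ 2 - f = f * (f * k ^ 2 - 1) := by rw [hk]; ring
        rw [h1, hWu]
        exact ⟨f * C (k.leadingCoeff ^ 2) * u, by ring⟩
      · -- `w` is not divisible by `f`
        obtain ⟨c, hc, hWd, hWl⟩ : ∃ c : K, c ≠ 0 ∧ (w ^ 2 - f).natDegree < 2 * n ∧
            (-1) ^ (w ^ 2 - f).natDegree * (w ^ 2 - f).leadingCoeff = c ^ 2 := by
          have hw0 : w ≠ 0 := fun h0 => hfw (by rw [h0]; exact dvd_zero _)
          rcases Nat.lt_or_ge w.natDegree 2 with h1 | h1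
          · refine ⟨1, one_ne_zero, ?_, ?_⟩
            · rw [natDegree_sub_eq_right_of_natDegree_lt (by rw [natDegree_pow, hd]; omega), hd]
              omega
            · rw [natDegree_sub_eq_right_of_natDegree_lt (by rw [natDegree_pow, hd]; omega), hd,
                leadingCoeff_sub_of_degree_lt' (degree_lt_degree (by
                rw [natDegree_pow, hd]; omega)), hf.leadingCoeff]
              ring
          · refine ⟨w.leadingCoeff, leadingCoeff_ne_zero.2 hw0, ?_, ?_⟩
            · rw [natDegree_sub_eq_left_of_natDegree_lt (by rw [natDegree_pow, hd]; omega),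
                natDegree_pow]
              omega
            · rw [natDegree_sub_eq_left_of_natDegree_lt (by rw [natDegree_pow, hd]; omega),
                natDegree_pow, leadingCoeff_sub_of_degree_lt (degree_lt_degree (by
                rw [natDegree_pow, hd]; omega)), leadingCoeff_pow]
              rw [Even.neg_one_pow ⟨w.natDegree, by ring⟩, one_mul]
        have hW0 : w ^ 2 - f ≠ 0 := by
          intro h0
          rw [h0, leadingCoeff_zero, mul_zero] at hWl
          exact pow_ne_zero 2 hc hWl.symm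
        obtain ⟨u', hu', hWu, hdeg⟩ := divide hu hW0 hdv'
        rw [hn] at hdeg
        have hsg : C c ^ 2 * sgn u * sgn u' = w ^ 2 - f := by
          have e1 : (-1 : K[X]) ^ u.natDegree * (-1) ^ u'.natDegree =
              (-1) ^ (w ^ 2 - f).natDegree := by
            rw [← pow_add, hn, ← hdeg]
          have e2 : C c ^ 2 * sgn u * sgn u' =
              C c ^ 2 * ((-1) ^ u.natDegree * (-1) ^ u'.natDegree) * (u * u') := by
            rw [sgn, sgn]; ring
          have e4 : ((-1 : K[X]) ^ (w ^ 2 - f).natDegree) = C ((-1) ^ (w ^ 2 - f).natDegree) := by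
            rw [C_pow, C_neg, C_1]
          have e5 : (-1 : K) ^ (w ^ 2 - f).natDegree * (-1) ^ (w ^ 2 - f).natDegree = 1 := by
            rw [← mul_pow]; norm_num
          have e6 : c ^ 2 * (-1) ^ (w ^ 2 - f).natDegree = (w ^ 2 - f).leadingCoeff := by
            rw [← hWl]
            calc _ = ((-1 : K) ^ (w ^ 2 - f).natDegree * (-1) ^ (w ^ 2 - f).natDegree) *
                (w ^ 2 - f).leadingCoeff := by ring
              _ = _ := by rw [e5, one_mul]
          rw [e2, e1, e4, ← C_pow, ← C_mul, e6, ← hWu]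
        have hco' : IsCoprime u' f := by
          apply IsCoprime.symm
          rw [hirr.coprime_iff_not_dvd]
          intro h1
          apply hfw
          have h2 : f ∣ w ^ 2 := by
            have h3 : f ∣ w ^ 2 - f := by
              rw [hWu]
              exact (h1.mul_left u).mul_left _
            have h4 := dvd_add h3 (dvd_refl f)
            rwa [sub_add_cancel] at h4
          exact hirr.prime.dvd_of_dvd_pow h2
        obtain ⟨s', hs'⟩ := step (u' := u') (t := w) hc hco hs (by
          rw [hsg]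
          exact ⟨-1, by ring⟩)
        refine ih u'.natDegree (by omega) u' w s' h rfl hu' hco' ?_ hs'
        rw [hWu]
        exact ⟨C (w ^ 2 - f).leadingCoeff * u, by ring⟩

theorem cntI [CharZero K] {f h : K[X]} (hf : f.Monic) (hd : f.natDegree = 3)
    (hirr : Irreducible f) (hl : LocIm K f h) : P1 f h := by
  obtain ⟨u, v, s, h1, h2, h3, h4⟩ := Pool.Agent.N2.PQ.cant K 1 f h hf (by rw [hd]) hl
  exact red hf hd hirr u.natDegree u v s h rfl h1 h2 h3 h4

end Pool.Agent.H18PR
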