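import Pool.Agent.H18PR.Sgn
import Pool.Agent.H18PR.Red
import Pool.Agent.H68K.PR.Stm

/-!
# One point suffices (project PR of helper68)

By helper18.
-/

set_option autoImplicit false
set_option linter.all false

open Polynomial
open scoped Classical

namespace Pool.Agent.H18PR

open Pool.Agent.N783.PQ (LocIm)
open Pool.Agent.N874.JM (LocF)
open Pool.Agent.N874.PM (PLoc)
open Pool.Agent.H68K.PR

theorem locIm_map {K K' : Type} [Field K] [Field K'] (φ : K →+* K') {f h : K[X]}
    (hl : LocIm K f h) : LocIm K' (f.map φ) (h.map φ) := by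
  obtain ⟨l, s, h1, h2⟩ := hl
  refine ⟨l.map fun p => (p.1.map φ, p.2.map φ), s.map φ, ?_, ?_⟩
  · intro p hp
    rw [List.mem_map] at hp
    obtain ⟨q, hq, rfl⟩ := hp
    obtain ⟨h3, h4, h5⟩ := h1 q hq
    refine ⟨h3.map φ, h4.map (mapRingHom φ), ?_⟩
    have h6 := Polynomial.map_dvd φ h5
    rwa [Polynomial.map_sub, Polynomial.map_pow] at h6
  · have h6 := Polynomial.map_dvd φ h2
    rw [Polynomial.map_sub, Polynomial.map_pow, Polynomial.map_mul] at h6
    have h7 : (pr l).map φ =
        pr (l.map fun p : K[X] × K[X] => (p.1.map φ, p.2.map φ)) := by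
      rw [pr, pr, List.map_map, ← coe_mapRingHom, map_list_prod, List.map_map]
      congr 1
      apply List.map_congr_left
      intro p _
      simp only [Function.comp_apply, coe_mapRingHom, Polynomial.map_mul, Polynomial.map_pow,
        Polynomial.map_neg, Polynomial.map_one, natDegree_map]
    change f.map φ ∣ h.map φ * pr (l.map fun p : K[X] × K[X] => (p.1.map φ, p.2.map φ)) - _
    rw [← h7]
    exact h6

theorem P1_map {K K' : Type} [Field K] [Field K'] (φ : K →+* K') {f h : K[X]}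
    (hl : P1 f h) : P1 (f.map φ) (h.map φ) := by
  rcases hl with ⟨g, hg⟩ | ⟨x, y, hy, hxy, g, hg⟩
  · left
    refine ⟨g.map φ, ?_⟩
    have h6 := Polynomial.map_dvd φ hg
    rwa [Polynomial.map_sub, Polynomial.map_pow] at h6
  · right
    refine ⟨φ x, φ y, by rwa [Ne, map_eq_zero], ?_, g.map φ, ?_⟩
    · rw [← map_pow, hxy, eval_map_apply]
    · have h6 := Polynomial.map_dvd φ hg
      rwa [Polynomial.map_sub, Polynomial.map_pow, Polynomial.map_mul, Polynomial.map_sub,
        map_C, map_X] at h6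

theorem cub_monic {K : Type} [Field K] (a b : K) : (X ^ 3 + C a * X + C b : K[X]).Monic ∧
    (X ^ 3 + C a * X + C b : K[X]).natDegree = 3 := by
  have h1 : (X ^ 3 + C a * X + C b : K[X]) = C 1 * X ^ 3 + C 0 * X ^ 2 + C a * X + C b := by
    rw [C_1, C_0]; ring
  have h2 : (X ^ 3 + C a * X + C b : K[X]).natDegree = 3 := by
    rw [h1]; exact natDegree_cubic one_ne_zero
  refine ⟨?_, h2⟩
  rw [Monic, h1]
  exact leadingCoeff_cubic one_ne_zero

theorem cub_sep {K : Type} [Field K] {a b : K} (h : 4 * a ^ 3 + 27 * b ^ 2 ≠ 0) :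
    (X ^ 3 + C a * X + C b : K[X]).Separable := by
  have hder : derivative (X ^ 3 + C a * X + C b : K[X]) = 3 * X ^ 2 + C a := by
    simp only [derivative_add, derivative_X_pow, derivative_mul, derivative_C, derivative_X]
    have e3 : (C (3 : K) : K[X]) = 3 := rfl
    simp [e3]
  refine ⟨C (4 * a ^ 3 + 27 * b ^ 2)⁻¹ * (-3 * (6 * C a * X - 9 * C b)),
    C (4 * a ^ 3 + 27 * b ^ 2)⁻¹ * (4 * C a ^ 2 + (6 * C a * X - 9 * C b) * X), ?_⟩
  rw [hder]
  have e1 : (C (4 * a ^ 3 + 27 * b ^ 2) : K[X]) = 4 * C a ^ 3 + 27 * C b ^ 2 := by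
    simp only [C_add, C_mul, C_pow]
    congr 2
  have e2 : (C (4 * a ^ 3 + 27 * b ^ 2)⁻¹ : K[X]) * (4 * C a ^ 3 + 27 * C b ^ 2) = 1 := by
    rw [← e1, ← C_mul, inv_mul_cancel₀ h, C_1]
  linear_combination e2

/-- **CNT.** -/
theorem cnt : S_CNT := by
  intro M K _ _ _ _ A B h hΔ hcase hL
  have hmap : (X ^ 3 + C A * X + C B : M[X]).map (algebraMap M K) =
      X ^ 3 + C (algebraMap M K A) * X + C (algebraMap M K B) := by
    simp only [Polynomial.map_add, Polynomial.map_mul, Polynomial.map_pow, map_X, map_C]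
  have hL' : LocIm K (X ^ 3 + C (algebraMap M K A) * X + C (algebraMap M K B))
      (h.map (algebraMap M K)) := by
    rw [← hmap]
    exact hL
  have key : P1 (X ^ 3 + C (algebraMap M K A) * X + C (algebraMap M K B))
      (h.map (algebraMap M K)) := by
    obtain ⟨h1, h2⟩ := cub_monic (algebraMap M K A) (algebraMap M K B)
    rcases hcase with hirr | ⟨⟨φ⟩⟩
    · exact cntI h1 h2 hirr hL'
    · have hsep : (X ^ 3 + C (algebraMap M K A) * X + C (algebraMap M K B) : K[X]).Separable := by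
        apply cub_sep
        have e : 4 * (algebraMap M K A) ^ 3 + 27 * (algebraMap M K B) ^ 2 =
          algebraMap M K (4 * A ^ 3 + 27 * B ^ 2) := by
          simp only [map_add, map_mul, map_pow, map_ofNat]
        rw [e, Ne, map_eq_zero]
        exact hΔ
      set p : K[X] := X ^ 3 + C (algebraMap M K A) * X + C (algebraMap M K B) with hp
      have h3 := locIm_map (φ : K →+* ℝ) hL'
      have h4 : P1 (p.map (φ : K →+* ℝ)) ((h.map (algebraMap M K)).map (φ : K →+* ℝ)) :=
        cntR (h1.map _) (by rw [h1.natDegree_map, h2]) hsep.map h3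
      have h5 := P1_map (φ.symm : ℝ →+* K) h4
      rw [map_map, map_map] at h5
      have h6 : (φ.symm : ℝ →+* K).comp (φ : K →+* ℝ) = RingHom.id K := by
        ext x; simp
      rwa [h6, map_id, map_id] at h5
  rcases key with ⟨g, hg⟩ | ⟨x, y, hy, hxy, g, hg⟩
  · exact Or.inl ⟨g, hg⟩
  · refine Or.inr ⟨x, y, hy, ?_, g, hg⟩
    rw [hxy]
    simp

end Pool.Agent.H18PR
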