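import Pool.Agent.H68K.PR.Stm

/-!
# Twisting by a square (project PR of helper68)

By helper18.
-/

set_option autoImplicit false
set_option linter.all false

open Polynomial
open scoped Classical

namespace Pool.Agent.H18PR

open Pool.Agent.H68K.PR
open Pool.Agent.N874.PM (PLoc)

/-- **TWS.** -/
theorem tws : S_TWS := by
  intro M K _ _ _ _ A B D h hD hsq hP
  obtain ⟨δ, hδ⟩ := hsq
  have hd0 : algebraMap M K D ≠ 0 := by
    rw [Ne, map_eq_zero]; exact hD
  have hδ0 : δ ≠ 0 := by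
    rintro rfl
    apply hd0
    rw [hδ]; ring
  set d : K := algebraMap M K D with hd
  set a : K := algebraMap M K A with ha
  set b : K := algebraMap M K B with hb
  have eA : algebraMap M K (A * D ^ 2) = a * d ^ 2 := by rw [map_mul, map_pow]
  have eB : algebraMap M K (B * D ^ 3) = b * d ^ 3 := by rw [map_mul, map_pow]
  have key : ∀ p : K[X], (X ^ 3 + C a * X + C b ∣ p) →
      (X ^ 3 + C (a * d ^ 2) * X + C (b * d ^ 3) ∣ p.comp (C d⁻¹ * X)) := by
    rintro p ⟨k, rfl⟩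
    refine ⟨C (d⁻¹ ^ 3) * k.comp (C d⁻¹ * X), ?_⟩
    rw [mul_comp, add_comp, add_comp, mul_comp, C_comp, C_comp, X_comp, pow_comp, X_comp]
    have e1 : (C d : K[X]) * C d⁻¹ = 1 := by rw [← C_mul, mul_inv_cancel₀ hd0, C_1]
    rw [C_mul, C_mul, C_pow, C_pow, C_pow]
    have e2 : (X ^ 3 + C a * C d ^ 2 * X + C b * C d ^ 3) * (C d⁻¹ ^ 3 * k.comp (C d⁻¹ * X)) =
      (C d⁻¹ ^ 3 * X ^ 3 + C a * (C d * C d⁻¹) ^ 2 * C d⁻¹ * X + C b * (C d * C d⁻¹) ^ 3) *
        k.comp (C d⁻¹ * X) := by ring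
    rw [e2, e1]
    ring
  have e3 : ((h.comp (C D * X)).map (algebraMap M K)).comp (C d⁻¹ * X) = h.map (algebraMap M K) := by
    rw [Polynomial.map_comp, Polynomial.map_mul, map_C, map_X, comp_assoc, mul_comp, C_comp, X_comp,
      ← mul_assoc, ← C_mul, ← hd, mul_inv_cancel₀ hd0, C_1, one_mul, comp_X]
  rcases hP with ⟨g, hg⟩ | ⟨x, y, hy, hxy, g, hg⟩
  · left
    refine ⟨g.comp (C d⁻¹ * X), ?_⟩
    have h1 := key _ hg
    rw [sub_comp, e3, pow_comp] at h1
    rw [eA, eB]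
    exact h1
  · right
    refine ⟨d * x, δ ^ 3 * y, mul_ne_zero (pow_ne_zero _ hδ0) hy, ?_, C δ * g.comp (C d⁻¹ * X), ?_⟩
    · rw [eA, eB, mul_pow, hxy, hδ]
      ring
    · have h1 := (key _ hg).mul_left (C d)
      rw [sub_comp, mul_comp, e3, pow_comp, sub_comp, C_comp, X_comp] at h1
      rw [eA, eB]
      have e1 : (C d : K[X]) * C d⁻¹ = 1 := by rw [← C_mul, mul_inv_cancel₀ hd0, C_1]
      have e4 : (C (d * x) - X) * h.map (algebraMap M K) - (C δ * g.comp (C d⁻¹ * X)) ^ 2 =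
        C d * ((C x - C d⁻¹ * X) * h.map (algebraMap M K) - g.comp (C d⁻¹ * X) ^ 2) := by
        have e5 : (C d : K[X]) = C δ * C δ := by rw [hδ, C_mul]
        rw [C_mul, mul_pow, mul_sub, ← mul_assoc, mul_sub, ← mul_assoc, e1, one_mul, e5]
        ring
      rw [e4]
      exact h1

end Pool.Agent.H18PR
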