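import Pool.Agent.H68K.PR.StmY
import Pool.Agent.H68K.PR.Kum

/-!
# Project PR (helper18): the exact sequence `0 → E(M)/2 → Sel → Ш[2] → 0` (S_SHA2)
-/

set_option autoImplicit false
set_option linter.all false

open Polynomial IsDedekindDomain NumberField WeierstrassCurve WeierstrassCurve.Affine
open Pool.Agent.TH115.GD Pool.Agent.N874.PP
open Pool.Agent.N721.PP Pool.Agent.N713.QM
open Pool.Agent.N874.QM (IsLoc SelC ShaC)
open Pool.Agent.H68K.PR
open scoped Classical

namespace Pool.Agent.H18PR.RL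

/-- The index of `2 A` in a finitely generated group without elements of order two. -/
theorem card_mod_two {A B : Type} [AddCommGroup A] [AddGroup.FG A] [AddGroup B]
    (h2 : ∀ a : A, (2 : ℕ) • a = 0 → a = 0) (κ : A →+ B)
    (hκ : ∀ a : A, κ a = 0 ↔ ∃ c : A, a = (2 : ℕ) • c) :
    Nat.card κ.range = 2 ^ Module.finrank ℤ A := by
  obtain ⟨n, ι, _, p, hp, e, ⟨φ⟩⟩ := AddCommGroup.equiv_free_prod_directSum_zmod A
  -- the torsion part
  let T := DirectSum ι fun i => ZMod (p i ^ e i)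
  haveI : ∀ i, Fintype (ZMod (p i ^ e i)) := fun i => by
    haveI : NeZero (p i ^ e i) := ⟨pow_ne_zero _ (hp i).ne_zero⟩
    infer_instance
  haveI : Finite T := by
    haveI : Finite (∀ i, ZMod (p i ^ e i)) := Pi.finite
    exact Finite.of_injective (fun (x : T) (i : ι) => x i) (fun x y h => DFinsupp.ext fun i => congrFun h i)
  have hT2 : Function.Surjective fun t : T => (2 : ℕ) • t := by
    apply Finite.surjective_of_injective
    intro t t' h
    have h1 : (2 : ℕ) • (t - t') = 0 := by rw [smul_sub]; exact sub_eq_zero.2 h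
    have h3 : φ.symm ((0 : Fin n →₀ ℤ), t - t') = 0 := by
      apply h2
      rw [← map_nsmul]
      have : (2 : ℕ) • ((0 : Fin n →₀ ℤ), t - t') = 0 := Prod.ext (by simp) h1
      rw [this, map_zero]
    have h4 := congrArg φ h3
    rw [AddEquiv.apply_symm_apply, map_zero] at h4
    have h5 := congrArg Prod.snd h4
    exact sub_eq_zero.1 h5
  -- the rank
  have hrank : Module.finrank ℤ A = n := by
    let π : A →ₗ[ℤ] (Fin n →₀ ℤ) := ((AddMonoidHom.fst _ _).comp φ.toAddMonoidHom).toIntLinearMap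
    have hk : Module.rank ℤ (LinearMap.ker π) = 0 := by
      rw [rank_eq_zero_iff]
      rintro ⟨x, hx⟩
      have hx0 : (φ x).1 = 0 := hx
      refine ⟨((Nat.card T : ℕ) : ℤ), ?_, ?_⟩
      · exact_mod_cast Nat.card_pos.ne'
      · refine Subtype.ext (φ.injective ?_)
        rw [Submodule.coe_smul, Submodule.coe_zero, map_zero, map_zsmul]
        refine Prod.ext ?_ ?_
        · rw [Prod.smul_fst, hx0, smul_zero]
          rfl
        · rw [Prod.smul_snd, natCast_zsmul]
          exact card_nsmul_eq_zero'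
    have hsurj : LinearMap.range π = ⊤ := by
      rw [LinearMap.range_eq_top]
      intro y
      refine ⟨φ.symm (y, 0), ?_⟩
      show (φ (φ.symm (y, 0))).1 = y
      rw [AddEquiv.apply_symm_apply]
    have h1 := LinearMap.rank_range_add_rank_ker π
    rw [hk, add_zero, hsurj, rank_top, rank_finsupp_self'] at h1
    rw [Module.finrank, ← h1]
    simp
  -- the map to `(ZMod 2) ^ n`
  let ψ : A →+ (Fin n → ZMod 2) :=
    { toFun := fun a i => (((φ a).1 i : ℤ) : ZMod 2)
      map_zero' := by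
        funext i
        simp
      map_add' := fun a b => by
        funext i
        simp }
  have hψ : ∀ a : A, ψ a = 0 ↔ ∃ c : A, a = (2 : ℕ) • c := by
    intro a
    constructor
    · intro h
      have h1 : ∀ i, ∃ c : ℤ, (φ a).1 i = 2 * c := by
        intro i
        have h3 : (((φ a).1 i : ℤ) : ZMod 2) = 0 := congrFun h i
        rw [ZMod.intCast_zmod_eq_zero_iff_dvd] at h3
        exact h3
      choose c hc using h1
      obtain ⟨t, ht⟩ := hT2 (φ a).2
      refine ⟨φ.symm (Finsupp.equivFunOnFinite.symm c, t), ?_⟩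
      rw [← map_nsmul]
      apply φ.injective
      rw [AddEquiv.apply_symm_apply]
      refine Prod.ext ?_ ht.symm
      ext i
      rw [Prod.smul_fst, Finsupp.smul_apply]
      show (φ a).1 i = (2 : ℕ) • c i
      rw [hc i]
      simp
    · rintro ⟨c, rfl⟩
      rw [map_nsmul]
      funext i
      rw [Pi.smul_apply, nsmul_eq_mul]
      have : ((2 : ℕ) : ZMod 2) = 0 := by decide
      rw [this, zero_mul]
      rfl
  have hψs : Function.Surjective ψ := by
    intro y
    refine ⟨φ.symm (Finsupp.equivFunOnFinite.symm fun i => ((y i).val : ℤ), 0), ?_⟩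
    funext i
    show (((φ (φ.symm _)).1 i : ℤ) : ZMod 2) = y i
    rw [AddEquiv.apply_symm_apply]
    show ((((y i).val : ℕ) : ℤ) : ZMod 2) = y i
    rw [Int.cast_natCast, ZMod.natCast_zmod_val]
  have hker : κ.ker = ψ.ker := by
    ext a
    rw [AddMonoidHom.mem_ker, AddMonoidHom.mem_ker, hκ, hψ]
  have e1 : Nat.card κ.range = Nat.card (A ⧸ κ.ker) :=
    (Nat.card_congr (QuotientAddGroup.quotientKerEquivRange κ).toEquiv).symm
  have e2 : Nat.card (A ⧸ ψ.ker) = Nat.card (Fin n → ZMod 2) :=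
    Nat.card_congr (QuotientAddGroup.quotientKerEquivOfSurjective ψ hψs).toEquiv
  rw [e1, hker, e2, hrank, Nat.card_fun, Nat.card_zmod, Nat.card_fin]

section kum

variable {M : Type} [Field M] [NumberField M]

theorem sha2 : S_SHA2 := by
  intro M _ _ A B hd hno hfin
  haveI : Algebra.IsSeparable M (Sep M) := IsSepClosure.separable
  haveI : IsGalois M (Sep M) := inferInstance
  have h6 : (6 : M) ≠ 0 := by norm_num
  have hΔ : ((sW A B).baseChange M).Δ ≠ 0 := by
    have h1 : ((sW A B).baseChange M).Δ = -16 * (4 * A ^ 3 + 27 * B ^ 2) := by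
      simp only [WeierstrassCurve.Δ, WeierstrassCurve.b₂, WeierstrassCurve.b₄, WeierstrassCurve.b₆,
        WeierstrassCurve.b₈, WeierstrassCurve.baseChange, WeierstrassCurve.map, sW]
      simp
      ring
    rw [h1]
    exact mul_ne_zero (by norm_num) hd
  haveI hfg : AddGroup.FG (Pt (sW A B) M) :=
    Pool.Agent.Q286.EQ.mordell_weil M ((sW A B).baseChange M) hΔ
  set W := sW A B with hW
  have hhalf : ∀ P : Pt W M, ∃ Q : Pt W (Sep M),
      Q + Q = act W (incl M M (Sep M)) P := fun P => half h6 hd _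
  choose Q hQ using hhalf
  -- the map between the quotients
  have hle : Cob W ≤ (CobP W).comap (AddMonoidHom.id _) := by
    rintro f ⟨T, -, hT⟩
    exact ⟨T, hT⟩
  let π := QuotientAddGroup.map (Cob W) (CobP W) (AddMonoidHom.id _) hle
  have hπ : ∀ f, π (QuotientAddGroup.mk f) = QuotientAddGroup.mk f := fun f => rfl
  -- the Kummer map
  let δ : Pt W (Sep M) → (Sep M ≃ₐ[M] Sep M) → Pt W (Sep M) := fun Q σ => act W (rs M σ) Q - Q
  have hδadd : ∀ Q Q', δ (Q + Q') = δ Q + δ Q' := fun Q Q' => by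
    funext σ
    show act W (rs M σ) (Q + Q') - (Q + Q') = (act W (rs M σ) Q - Q) + (act W (rs M σ) Q' - Q')
    rw [map_add]; abel
  have hδneg : ∀ Q, δ (-Q) = - δ Q := fun Q => by
    funext σ
    show act W (rs M σ) (-Q) - (-Q) = -(act W (rs M σ) Q - Q)
    rw [map_neg]; abel
  -- two halves of the same point give the same class
  have hcl : ∀ Q Q' : Pt W (Sep M), Q + Q = Q' + Q' →
      (QuotientAddGroup.mk (δ Q) : _ ⧸ Cob W) = QuotientAddGroup.mk (δ Q') := by
    intro Q Q' h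
    rw [QuotientAddGroup.eq]
    refine ⟨Q' - Q, ?_, fun σ => ?_⟩
    · rw [two_nsmul]
      have : Q' - Q + (Q' - Q) = (Q' + Q') - (Q + Q) := by abel
      rw [this, h, sub_self]
    · rw [Pi.add_apply, Pi.neg_apply]
      show -(act W (rs M σ) Q - Q) + (act W (rs M σ) Q' - Q') = act W (rs M σ) (Q' - Q) - (Q' - Q)
      rw [map_sub]; abel
  let κ : Pt W M →+ (_ ⧸ Cob W) := AddMonoidHom.mk' (fun P => QuotientAddGroup.mk (δ (Q P)))
    (fun P P' => by
      show (QuotientAddGroup.mk (δ (Q (P + P'))) : _ ⧸ Cob W) =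
        QuotientAddGroup.mk (δ (Q P)) + QuotientAddGroup.mk (δ (Q P'))
      rw [← QuotientAddGroup.mk_add, ← hδadd]
      apply hcl
      rw [hQ, map_add, ← hQ, ← hQ]
      abel)
  have hκv : ∀ P, κ P = QuotientAddGroup.mk (δ (Q P)) := fun P => rfl
  have hκ : ∀ P : Pt W M, κ P = 0 ↔ ∃ c : Pt W M, P = (2 : ℕ) • c := by
    intro P
    constructor
    · intro h
      rw [hκv, QuotientAddGroup.eq_zero_iff] at h
      obtain ⟨T, hT2, hT⟩ := h
      obtain ⟨R, hR⟩ := fixed_point (K := M) (F := M) W (Q P - T) (fun σ => by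
        have h1 := hT σ
        have h2 : act W (rs M σ) (Q P) = Q P + (act W (rs M σ) T - T) := by
          rw [← h1]
          show act W (rs M σ) (Q P) = Q P + (act W (rs M σ) (Q P) - Q P)
          abel
        rw [map_sub, h2]; abel)
      refine ⟨R, act_inj W (incl M M (Sep M)) ?_⟩
      rw [map_nsmul, hR, ← hQ, smul_sub, hT2, sub_zero, two_nsmul]
    · rintro ⟨c, rfl⟩
      rw [hκv]
      have h1 := hcl (Q ((2 : ℕ) • c)) (act W (incl M M (Sep M)) c) (by
        rw [hQ, map_nsmul, two_nsmul])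
      rw [h1, QuotientAddGroup.eq_zero_iff]
      refine ⟨0, by simp, fun σ => ?_⟩
      show act W (rs M σ) (act W (incl M M (Sep M)) c) - act W (incl M M (Sep M)) c = _
      rw [rs_act_incl]
      simp
  -- translations
  have htr : ∀ x ∈ Sel2 W, ∀ P : Pt W M, x + κ P ∈ Sel2 W := by
    rintro x ⟨f, hf, hf2, hl, rfl⟩ P
    have hfix : ∀ σ : Sep M ≃ₐ[M] Sep M, act W (rs M σ) (Q P + Q P) = Q P + Q P := fun σ => by
      rw [hQ]; exact rs_act_incl _ σ P
    have e1 : f + δ (Q P) = fun σ => f σ - (act W (rs M σ) (-Q P) - (-Q P)) := by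
      funext σ
      rw [Pi.add_apply]
      show f σ + (act W (rs M σ) (Q P) - Q P) = _
      rw [map_neg]; abel
    refine ⟨f + δ (Q P), ?_, fun σ => ?_, ?_, ?_⟩
    · rw [e1]; exact hf.sub _ (cob_isCoc _ _)
    · rw [Pi.add_apply, smul_add, hf2, zero_add]
      show (2 : ℕ) • (act W (rs M σ) (Q P) - Q P) = 0
      rw [two_nsmul, sub_add_sub_comm, ← map_add, hfix, sub_self]
    · rw [e1]; exact isLoc_sub hl _
    · rw [hκv, QuotientAddGroup.mk_add]
  -- fibres
  have hfib : ∀ x ∈ Sel2 W, ∀ y ∈ Sel2 W, π x = π y → ∃ P : Pt W M, y = x + κ P := by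
    rintro x ⟨f, hf, hf2, hl, rfl⟩ y ⟨g, hg, hg2, hl', rfl⟩ h
    rw [hπ, hπ, QuotientAddGroup.eq] at h
    obtain ⟨R, hR⟩ := h
    obtain ⟨P, hP⟩ := fixed_point (K := M) (F := M) W (R + R) (fun σ => by
      have h1 := hR σ
      rw [Pi.add_apply, Pi.neg_apply] at h1
      have h2 : (2 : ℕ) • (act W (rs M σ) R - R) = 0 := by
        rw [← h1, smul_add, smul_neg, hf2, hg2, neg_zero, add_zero]
      rw [two_nsmul] at h2
      rw [map_add]
      have h3 : act W (rs M σ) R + act W (rs M σ) R - (R + R) = 0 := by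
        rw [← h2]; abel
      exact sub_eq_zero.1 h3)
    refine ⟨P, ?_⟩
    rw [hκv, hcl (Q P) R (by rw [hQ, hP]), ← QuotientAddGroup.mk_add, QuotientAddGroup.eq]
    refine ⟨0, by simp, fun σ => ?_⟩
    rw [Pi.add_apply, Pi.neg_apply, Pi.add_apply]
    have h1 := hR σ
    rw [Pi.add_apply, Pi.neg_apply] at h1
    show -g σ + (f σ + (act W (rs M σ) R - R)) = _
    rw [← h1]
    simp
  -- `π` is onto
  have honto : ∀ z ∈ Sha2 W, ∃ x ∈ Sel2 W, π x = z := by
    rintro z ⟨f, hf, hl, ⟨T, hT⟩, rfl⟩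
    obtain ⟨S, hS⟩ := half h6 hd T
    refine ⟨QuotientAddGroup.mk fun σ => f σ - (act W (rs M σ) S - S), ⟨_, hf.sub _ (cob_isCoc _ _),
      fun σ => ?_, isLoc_sub hl S, rfl⟩, ?_⟩
    · rw [smul_sub, hT, two_nsmul, sub_add_sub_comm, ← map_add, hS, sub_self]
    · rw [hπ, QuotientAddGroup.eq]
      refine ⟨S, fun σ => ?_⟩
      rw [Pi.add_apply, Pi.neg_apply]
      abel
  have hinto : ∀ x ∈ Sel2 W, π x ∈ Sha2 W := by
    rintro x ⟨f, hf, hf2, hl, rfl⟩
    exact ⟨f, hf, hl, ⟨0, fun σ => by rw [hf2]; simp⟩, hπ f⟩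
  have hSha : Sha2 W = π '' Sel2 W := by
    ext z
    constructor
    · intro hz
      obtain ⟨x, hx, hxz⟩ := honto z hz
      exact ⟨x, hx, hxz⟩
    · rintro ⟨x, hx, rfl⟩
      exact hinto x hx
  refine ⟨by rw [hSha]; exact hfin.image _, ?_⟩
  -- the count
  have hcard : Nat.card κ.range = 2 ^ Module.finrank ℤ (Pt W M) :=
    card_mod_two hno κ hκ
  choose s hs1 hs2 using honto
  have hker0 : ∀ P : Pt W M, π (κ P) = 0 := by
    intro P
    rw [hκv, hπ, QuotientAddGroup.eq_zero_iff]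
    exact ⟨Q P, fun σ => rfl⟩
  let Φ : κ.range × Sha2 W → Sel2 W := fun y => ⟨s y.2.1 y.2.2 + y.1.1, by
    obtain ⟨P, hP⟩ := y.1.2
    rw [← hP]
    exact htr _ (hs1 _ _) P⟩
  have hΦ : Function.Bijective Φ := by
    constructor
    · rintro ⟨⟨k, hk⟩, ⟨z, hz⟩⟩ ⟨⟨k', hk'⟩, ⟨z', hz'⟩⟩ h
      obtain ⟨P, rfl⟩ := hk
      obtain ⟨P', rfl⟩ := hk'
      have h1 : s z hz + κ P = s z' hz' + κ P' := congrArg Subtype.val h
      have h2 := congrArg π h1
      rw [map_add, map_add, hs2, hs2, hker0, hker0, add_zero, add_zero] at h2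
      subst h2
      have h3 : κ P = κ P' := add_left_cancel h1
      simp only [h3]
    · rintro ⟨x, hx⟩
      obtain ⟨P, hP⟩ := hfib (s (π x) (hinto x hx)) (hs1 _ _) x hx (hs2 _ _)
      refine ⟨(⟨κ P, P, rfl⟩, ⟨π x, hinto x hx⟩), ?_⟩
      exact Subtype.ext hP.symm
  rw [← hcard, ← Nat.card_prod]
  exact (Nat.card_congr (Equiv.ofBijective Φ hΦ)).symm

end kum

end Pool.Agent.H18PR.RL
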