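import Pool.Agent.H68K.PR.StmX

/-!
# No rational points of order two (S_NT2)
-/

set_option autoImplicit false
set_option linter.all false

open Polynomial NumberField WeierstrassCurve WeierstrassCurve.Affine
open Pool.Agent.TH115.GD (Pt)
open Pool.Agent.N874.PP (sW)
open scoped Classical

namespace Pool.Agent.H18PR.RL

theorem nt2 : Pool.Agent.H68K.PR.S_NT2 := by
  intro M _ _ A B hirr P hP
  by_contra hne
  have h1 : P = -P := by
    rw [two_nsmul] at hP
    exact eq_neg_of_add_eq_zero_left hP
  rcases P with _ | ⟨x, y, hxy⟩
  · exact hne rfl
  · rw [Point.neg_some] at h1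
    have hy : y = ((sW A B).baseChange M).toAffine.negY x y := by
      have := Point.some.inj h1
      exact this.2
    have h2 : ((sW A B).baseChange M).toAffine.negY x y = -y := by
      simp [negY, sW, WeierstrassCurve.baseChange]
    rw [h2] at hy
    have hy0 : y = 0 := by
      have : (2 : M) * y = 0 := by linear_combination hy
      rcases mul_eq_zero.1 this with h | h
      · norm_num at h
      · exact h
    have heq := (equation_iff _ _).1 hxy.1
    have hroot : x ^ 3 + A * x + B = 0 := by
      rw [hy0] at heq
      simp [sW, WeierstrassCurve.baseChange] at heq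
      linear_combination -heq
    have hd : (X ^ 3 + C A * X + C B : M[X]).degree = 3 := by compute_degree!
    have h3 := degree_eq_one_of_irreducible_of_root hirr (x := x) (by simp [IsRoot, hroot])
    rw [hd] at h3
    exact absurd h3 (by norm_num)

end Pool.Agent.H18PR.RL
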