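import Pool.Agent.H68K.PR.StmY
import Pool.Agent.H68K.PR.Kum
import Pool.Agent.N459.QM.FinC
import Pool.Agent.H18PR.NT2

/-!
# The order of `Ш[2]` and the rank, from the order of the Selmer group
-/

set_option autoImplicit false
set_option linter.all false

open Polynomial NumberField WeierstrassCurve WeierstrassCurve.Affine
open Pool.Agent.TH115.GD Pool.Agent.N874.PP
open Pool.Agent.N874.QM (IsLoc SelC ShaC)
open Pool.Agent.N721.PP Pool.Agent.N713.QM
open Pool.Agent.H68K.PR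
open scoped Classical

namespace Pool.Agent.H18PR.RL

section gen

variable {M : Type} [Field M] [NumberField M]

/-- The product of `2 ^ rank` and the order of `Ш[2]`. -/
theorem sha_of_sel (hS : S_SHA2) {A B : M}
    (hirr : Irreducible (X ^ 3 + C A * X + C B : M[X])) (hd : 4 * A ^ 3 + 27 * B ^ 2 ≠ 0) {k : ℕ}
    (h : Nat.card (Sel2 (sW A B)) = 2 ^ k) :
    2 ^ Module.finrank ℤ (Pt (sW A B) M) * Nat.card (Sha2 (sW A B)) = 2 ^ k := by
  have hfin : (Sel2 (sW A B)).Finite := by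
    have h1 : Nat.card (Sel2 (sW A B)) ≠ 0 := by rw [h]; exact pow_ne_zero _ two_ne_zero
    haveI := Nat.finite_of_card_ne_zero h1
    exact Set.toFinite _
  rw [← (hS M A B hd (nt2 M A B hirr) hfin).2, h]

/-- Trivial Selmer group. -/
theorem good_of_sel {A B : M} (hd : 4 * A ^ 3 + 27 * B ^ 2 ≠ 0)
    (h : Nat.card (Sel2 (sW A B)) = 1) :
    Finite (Pt (sW A B) M) ∧ Odd (Nat.card (Pt (sW A B) M)) ∧ ShaC (sW A B) := by
  have h1 : SelC (sW A B) := (selc_iff _).1 h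
  obtain ⟨h2, h3⟩ := Pool.Agent.N713.QM.gfc M A B hd h1
  obtain ⟨h4, h5⟩ := Pool.Agent.N459.QM.finc M A B hd h2
  exact ⟨h4, h5, h3⟩

/-- The zero class is in `Ш[2]`. -/
theorem zero_mem_sha (W : WeierstrassCurve M) : (QuotientAddGroup.mk 0 : _ ⧸ CobP W) ∈ Sha2 W := by
  have e0 : (fun σ : Sep M ≃ₐ[M] Sep M => act W (rs M σ) (0 : Pt W (Sep M)) - 0) = 0 := by
    funext σ
    simp
  refine ⟨0, ?_, ?_, ⟨0, fun σ => by simp⟩, rfl⟩
  · have := cob_isCoc (F := M) (Ω := Sep M) W (0 : Pt W (Sep M))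
    rwa [e0] at this
  · have := Pool.Agent.N713.QM.isLoc_cob W (0 : Pt W (Sep M))
    rwa [e0] at this

/-- If `Ш` has no elements of 2-power order then `Ш[2]` has one element. -/
theorem sha2_one {W : WeierstrassCurve M} (h : ShaC W) : Nat.card (Sha2 W) = 1 := by
  rw [Nat.card_eq_one_iff_exists]
  refine ⟨⟨QuotientAddGroup.mk 0, zero_mem_sha W⟩, ?_⟩
  rintro ⟨x, f, hf, hl, ⟨T, hT⟩, rfl⟩
  obtain ⟨Q, hQ⟩ := h f hf hl ⟨1, T, fun σ => by rw [pow_one]; exact hT σ⟩
  refine Subtype.ext ?_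
  show (QuotientAddGroup.mk f : _ ⧸ CobP W) = QuotientAddGroup.mk 0
  symm
  rw [QuotientAddGroup.eq]
  exact ⟨Q, fun σ => by simpa using hQ σ⟩

/-- The rank of a finite group of points is zero. -/
theorem finrank_zero {A : Type} [AddCommGroup A] [Finite A] : Module.finrank ℤ A = 0 := by
  rw [Module.finrank_eq_zero_iff_isTorsion]
  intro x
  refine ⟨⟨(Nat.card A : ℤ), ?_⟩, ?_⟩
  · rw [mem_nonZeroDivisors_iff_ne_zero]
    exact_mod_cast Nat.card_pos.ne'
  · show (Nat.card A : ℤ) • x = 0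
    rw [natCast_zsmul]
    exact card_nsmul_eq_zero'

end gen

end Pool.Agent.H18PR.RL
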