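import Pool.Agent.H18PR.RatInt
import Pool.Agent.H68K.PR.Fin8

/-!
# The law for pairs of integers, ordered by the naive height
-/

set_option autoImplicit false
set_option linter.all false

open NumberField
open Pool.Agent.N783.PF Pool.Agent.H68K.PR

namespace Pool.Agent.H18PR.RL

/-- The exponents. -/
noncomputable def αq : ℝ := (1 / 4 : ℝ) ^ (1 / 3 : ℝ)

noncomputable def βq : ℝ := (1 / 27 : ℝ) ^ (1 / 2 : ℝ)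

theorem αq_pos : 0 < αq := by unfold αq; positivity

theorem βq_pos : 0 < βq := by unfold βq; positivity

theorem αq_pow : αq ^ 3 = 1 / 4 := by
  unfold αq
  rw [← Real.rpow_natCast, ← Real.rpow_mul (by norm_num)]
  norm_num

theorem βq_pow : βq ^ 2 = 1 / 27 := by
  unfold βq
  rw [← Real.rpow_natCast, ← Real.rpow_mul (by norm_num)]
  norm_num

/-- The region. -/
theorem hw_iff {Y : ℝ} (hY : 0 < Y) (p : ℤ × ℤ) :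
    HW (fun _ => αq) (fun _ => βq) (fun _ => Y ^ (1 / 12 : ℝ)) 1 (E p) ↔ (Hn p : ℝ) ≤ Y := by
  have hs : (Y ^ (1 / 12 : ℝ)) ^ 12 = Y := by
    rw [← Real.rpow_natCast, ← Real.rpow_mul hY.le]
    norm_num
  set s : ℝ := Y ^ (1 / 12 : ℝ) with hsd
  have hs0 : 0 < s := Real.rpow_pos_of_pos hY _
  have ha := αq_pos
  have hb := βq_pos
  have ha3 := αq_pow
  have hb2 := βq_pow
  rw [Hn_le]
  have key1 : |(p.1 : ℝ)| ≤ αq * s ^ 4 ↔ 4 * |(p.1 : ℝ)| ^ 3 ≤ Y := by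
    rw [← pow_le_pow_iff_left₀ (abs_nonneg (p.1 : ℝ)) (by positivity : 0 ≤ αq * s ^ 4)
      (by norm_num : 3 ≠ 0), mul_pow, ha3, ← pow_mul, hs]
    constructor <;> intro h <;> linarith
  have key2 : |(p.2 : ℝ)| ≤ βq * s ^ 6 ↔ 27 * |(p.2 : ℝ)| ^ 2 ≤ Y := by
    rw [← pow_le_pow_iff_left₀ (abs_nonneg (p.2 : ℝ)) (by positivity : 0 ≤ βq * s ^ 6)
      (by norm_num : 2 ≠ 0), mul_pow, hb2, ← pow_mul, hs]
    constructor <;> intro h <;> linarith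
  rw [← key1, ← key2]
  unfold HW
  constructor
  · intro h
    have := h Rat.infinitePlace
    rw [E_fst, E_snd, Rat.infinitePlace_apply, Rat.infinitePlace_apply] at this
    push_cast at this
    simpa using this
  · intro h v
    rw [E_fst, E_snd, Rat.infinitePlace_apply, Rat.infinitePlace_apply]
    push_cast
    simpa using h

theorem prod_s {Y : ℝ} :
    ∏ v : InfinitePlace ℚ, (Y ^ (1 / 12 : ℝ)) ^ v.mult = Y ^ (1 / 12 : ℝ) := by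
  rw [Fintype.prod_unique]
  have h : (default : InfinitePlace ℚ).mult = 1 := by
    have : (default : InfinitePlace ℚ) = Rat.infinitePlace := Subsingleton.elim _ _
    rw [this]
    unfold InfinitePlace.mult
    rw [if_pos Rat.isReal_infinitePlace]
  rw [h, pow_one]

/-- The family of `M` and `R`. -/
def Fam (M : ℕ) (R : Set (ℤ × ℤ)) : Set (ℤ × ℤ) :=
  {p | p ∈ R ∧ disc p ≠ 0 ∧ ∀ q : ℕ, q.Prime → ¬ q ∣ M → ¬ (q : ℤ) ^ 2 ∣ disc p}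

/-- The law over `ℚ`, ordered by the naive height. -/
theorem ratlaw (ε : ℝ) (hε : 0 < ε) :
    ∃ (M : ℕ) (R : Set (ℤ × ℤ)), 0 < M ∧
    (∀ p p' : ℤ × ℤ, p ∈ R → (M : ℤ) ∣ p'.1 - p.1 → (M : ℤ) ∣ p'.2 - p.2 → p' ∈ R) ∧
    (∀ p ∈ Fam M R, ∀ q : ℕ, q.Prime → ¬ ((q : ℤ) ^ 4 ∣ p.1 ∧ (q : ℤ) ^ 6 ∣ p.2)) ∧
    ∃ (c Y₀ : ℝ), 0 < c ∧ ∀ Y : ℝ, {p : ℤ × ℤ | (Hn p : ℝ) ≤ Y}.Finite ∧ (Y₀ ≤ Y →
    0 < {p : ℤ × ℤ | (Hn p : ℝ) ≤ Y ∧ disc p ≠ 0}.ncard ∧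
    c * ({p : ℤ × ℤ | (Hn p : ℝ) ≤ Y ∧ disc p ≠ 0}.ncard : ℝ) ≤
      ({p : ℤ × ℤ | (Hn p : ℝ) ≤ Y ∧ p ∈ Fam M R}.ncard : ℝ) ∧
    ∀ K : Set ℕ, |({p : ℤ × ℤ | (Hn p : ℝ) ≤ Y ∧ p ∈ Fam M R ∧ ∃ k ∈ K, Gd (2 ^ k) (E p)}.ncard : ℝ) -
        (∑' k : K, pr2 k) * ({p : ℤ × ℤ | (Hn p : ℝ) ≤ Y ∧ p ∈ Fam M R}.ncard : ℝ)| ≤
      ε * ({p : ℤ × ℤ | (Hn p : ℝ) ≤ Y ∧ p ∈ Fam M R}.ncard : ℝ)) := by
  obtain ⟨M, R, hM, hR, h⟩ := fin7T ℚ (fun _ => αq) (fun _ => βq)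
    (fun _ => ⟨αq_pos, βq_pos⟩) ε hε
  obtain ⟨G, hG⟩ : ∃ G : Set (𝓞 ℚ × 𝓞 ℚ), G = {p | p ∈ R ∧ ∀ 𝔭 : Ideal (𝓞 ℚ), 𝔭.IsPrime →
    (M : 𝓞 ℚ) ∉ 𝔭 → 4 * p.1 ^ 3 + 27 * p.2 ^ 2 ∉ 𝔭 ^ 2} := ⟨_, rfl⟩
  obtain ⟨hmin, c, L₀, hc, h⟩ := h G hG
  have hFG : ∀ p : ℤ × ℤ, E p ∈ G ↔ p ∈ Fam M {p | E p ∈ R} := by
    intro p
    rw [hG]
    show (E p ∈ R ∧ _) ↔ (E p ∈ R ∧ _)
    rw [cond_iff hM]
  refine ⟨M, {p | E p ∈ R}, hM, ?_, ?_, c, ?_⟩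
  · intro p p' hp h1 h2
    refine hR (E p) (E p') hp ?_ ?_
    · have e1 : (E p').1 - (E p).1 = ((p'.1 - p.1 : ℤ) : 𝓞 ℚ) := by
        unfold E; push_cast; rfl
      rw [e1]
      refine Ideal.mem_span_singleton.2 ?_
      have e2 : (M : 𝓞 ℚ) = (((M : ℕ) : ℤ) : 𝓞 ℚ) := by push_cast; rfl
      rw [e2, dvd_iff]
      exact h1
    · have e1 : (E p').2 - (E p).2 = ((p'.2 - p.2 : ℤ) : 𝓞 ℚ) := by
        unfold E; push_cast; rfl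
      rw [e1]
      refine Ideal.mem_span_singleton.2 ?_
      have e2 : (M : 𝓞 ℚ) = (((M : ℕ) : ℤ) : 𝓞 ℚ) := by push_cast; rfl
      rw [e2, dvd_iff]
      exact h2
  · rintro p hp q hq ⟨h1, h2⟩
    have hp' := (hFG p).2 hp
    refine hmin (E p) hp' _ (span_prime hq) ?_ ⟨?_, ?_⟩
    · intro hbot
      have h0 : ((q : ℤ) : 𝓞 ℚ) ∈ (⊥ : Ideal (𝓞 ℚ)) := by
        rw [← hbot]; exact Ideal.mem_span_singleton_self _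
      rw [Ideal.mem_bot] at h0
      have h1 : ((q : ℤ) : 𝓞 ℚ) = ((0 : ℤ) : 𝓞 ℚ) := by rw [h0, Int.cast_zero]
      have h2 := cast_bij.1 h1
      exact hq.ne_zero (by exact_mod_cast h2)
    · exact (mem_span_pow q p.1 4).2 h1
    · exact (mem_span_pow q p.2 6).2 h2
  obtain ⟨Y₁, hY₁⟩ := Filter.eventually_atTop.1
    ((tendsto_rpow_atTop (by norm_num : (0 : ℝ) < 1 / 12)).eventually_ge_atTop L₀)
  have hfin1 : ∀ Y : ℝ, 0 < Y → {p : ℤ × ℤ | (Hn p : ℝ) ≤ Y}.Finite := by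
    intro Y hY
    have h1 := (h (fun _ => Y ^ (1 / 12 : ℝ)) (fun _ => Real.rpow_pos_of_pos hY _)).1
    refine (h1.preimage (E_bij.1.injOn)).subset fun p hp => ?_
    exact (hw_iff hY p).2 hp
  refine ⟨max 1 Y₁, hc, fun Y => ⟨?_, fun hY => ?_⟩⟩
  · refine (hfin1 (max 1 Y) (lt_of_lt_of_le one_pos (le_max_left _ _))).subset fun p hp => ?_
    have hp' : (Hn p : ℝ) ≤ Y := hp
    exact hp'.trans (le_max_right _ _)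
  · have hY1 : 1 ≤ Y := (le_max_left _ _).trans hY
    have hY0 : 0 < Y := zero_lt_one.trans_le hY1
    obtain ⟨-, h3⟩ := h (fun _ => Y ^ (1 / 12 : ℝ)) (fun _ => Real.rpow_pos_of_pos hY0 _)
    obtain ⟨h4, h5, h6⟩ := h3 (by
      rw [prod_s]
      exact hY₁ Y ((le_max_right _ _).trans hY))
    have e1 : {p : ℤ × ℤ | (Hn p : ℝ) ≤ Y ∧ disc p ≠ 0}.ncard =
        {p : 𝓞 ℚ × 𝓞 ℚ | HW (fun _ => αq) (fun _ => βq) (fun _ => Y ^ (1 / 12 : ℝ)) 1 p ∧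
          4 * p.1 ^ 3 + 27 * p.2 ^ 2 ≠ 0}.ncard := by
      rw [← ncard_E]
      congr 1
      ext p
      show _ ↔ (_ ∧ _)
      rw [hw_iff hY0, disc_ne]
      rfl
    have e2 : {p : ℤ × ℤ | (Hn p : ℝ) ≤ Y ∧ p ∈ Fam M {p | E p ∈ R}}.ncard =
        {p : 𝓞 ℚ × 𝓞 ℚ | HW (fun _ => αq) (fun _ => βq) (fun _ => Y ^ (1 / 12 : ℝ)) 1 p ∧
          p ∈ G}.ncard := by
      rw [← ncard_E]
      congr 1
      ext p
      show _ ↔ (_ ∧ _)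
      rw [hw_iff hY0, hFG]
      rfl
    rw [e1, e2]
    refine ⟨h4, h5, fun K => ?_⟩
    have e3 : {p : ℤ × ℤ | (Hn p : ℝ) ≤ Y ∧ p ∈ Fam M {p | E p ∈ R} ∧
        ∃ k ∈ K, Gd (2 ^ k) (E p)}.ncard =
        {p : 𝓞 ℚ × 𝓞 ℚ | HW (fun _ => αq) (fun _ => βq) (fun _ => Y ^ (1 / 12 : ℝ)) 1 p ∧
          p ∈ G ∧ ∃ k ∈ K, Gd (2 ^ k) p}.ncard := by
      rw [← ncard_E]
      congr 1
      ext p
      show _ ↔ (_ ∧ _ ∧ _)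
      rw [hw_iff hY0, hFG]
      rfl
    rw [e3]
    exact h6 K

end Pool.Agent.H18PR.RL
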