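import Pool.Agent.N783.PQ.Loc

/-!
# Real cubic polynomials and the local image at the real places (project PR of helper68)

By helper18.
-/

set_option autoImplicit false
set_option linter.all false

open Polynomial
open scoped Classical

namespace Pool.Agent.H18PR

open Pool.Agent.N783.PQ (LocIm)

/-- A real cubic polynomial with three real roots. -/
structure C3 (p : ℝ[X]) (a b c : ℝ) : Prop where
  ab : a < b
  bc : b < c
  eq : p = (X - C a) * (X - C b) * (X - C c)

/-- A real cubic polynomial with one real root. -/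
structure C1 (p : ℝ[X]) (a : ℝ) (z : ℂ) : Prop where
  im : z.im ≠ 0
  eq : p = (X - C a) * (X ^ 2 - C (2 * z.re) * X + C (‖z‖ ^ 2))

theorem quad_monic (b c : ℝ) : (X ^ 2 - C b * X + C c : ℝ[X]).Monic ∧
    (X ^ 2 - C b * X + C c : ℝ[X]).natDegree = 2 := by
  have h1 : (X ^ 2 - C b * X + C c : ℝ[X]) = C 1 * X ^ 2 + C (-b) * X + C c := by
    rw [C_1, C_neg]; ring
  have h2 : (X ^ 2 - C b * X + C c : ℝ[X]).natDegree = 2 := by
    rw [h1]; exact natDegree_quadratic one_ne_zero
  refine ⟨?_, h2⟩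
  rw [Monic, h1]
  exact leadingCoeff_quadratic one_ne_zero

theorem real_root (p : ℝ[X]) (hm : p.Monic) (hd : p.natDegree = 3) : ∃ a : ℝ, p.IsRoot a := by
  by_contra hn
  push Not at hn
  have h1 : p.roots = 0 := by
    rw [Multiset.eq_zero_iff_forall_notMem]
    intro a ha
    exact hn a (isRoot_of_mem_roots ha)
  have h2 := (hm.irreducible_iff_roots_eq_zero_of_degree_le_three (by omega) (by omega)).2 h1
  have h3 := h2.natDegree_le_two
  omega

theorem quad_cases (q : ℝ[X]) (hm : q.Monic) (hd : q.natDegree = 2) :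
    (∃ b c : ℝ, q = (X - C b) * (X - C c)) ∨
    ∃ z : ℂ, z.im ≠ 0 ∧ q = X ^ 2 - C (2 * z.re) * X + C (‖z‖ ^ 2) := by
  by_cases h : ∃ b : ℝ, q.IsRoot b
  · left
    obtain ⟨b, hb⟩ := h
    obtain ⟨r, hr⟩ := dvd_iff_isRoot.2 hb
    have hr0 : r ≠ 0 := by
      rintro rfl
      rw [mul_zero] at hr
      rw [hr] at hm
      exact not_monic_zero hm
    have hrm : r.Monic := by
      rw [hr] at hm
      exact (monic_X_sub_C b).of_mul_monic_left hm
    have hrd : r.natDegree = 1 := by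
      have h1 := (monic_X_sub_C b).natDegree_mul hrm
      rw [← hr, hd, natDegree_X_sub_C] at h1
      omega
    refine ⟨b, -r.coeff 0, ?_⟩
    rw [hr]
    congr 1
    have h2 := hrm.eq_X_add_C hrd
    rw [h2]
    simp
  · right
    push Not at h
    have hdeg : (q.map (algebraMap ℝ ℂ)).degree ≠ 0 := by
      rw [degree_map]
      intro h0
      have := natDegree_eq_zero_iff_degree_le_zero.2 h0.le
      omega
    obtain ⟨z, hz⟩ := IsAlgClosed.exists_root (q.map (algebraMap ℝ ℂ)) hdeg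
    have hz0 : aeval z q = 0 := by
      rw [aeval_def, ← eval_map]
      exact hz
    have him : z.im ≠ 0 := by
      intro h0
      have h1 : z = ((z.re : ℝ) : ℂ) := by
        apply Complex.ext <;> simp [h0]
      apply h z.re
      rw [h1] at hz0
      have h2 : aeval ((z.re : ℝ) : ℂ) q = ((q.eval z.re : ℝ) : ℂ) := by
        rw [← Complex.coe_algebraMap, aeval_algebraMap_apply, coe_aeval_eq_eval]
      rw [h2] at hz0
      exact_mod_cast hz0
    refine ⟨z, him, ?_⟩
    have h3 := quadratic_dvd_of_aeval_eq_zero_im_ne_zero q hz0 him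
    obtain ⟨h4, h5⟩ := quad_monic (2 * z.re) (‖z‖ ^ 2)
    exact (eq_of_monic_of_dvd_of_natDegree_le h4 hm h3 (by rw [hd, h5]))

theorem cubic_cases (p : ℝ[X]) (hm : p.Monic) (hd : p.natDegree = 3) (hs : p.Separable) :
    (∃ a b c : ℝ, C3 p a b c) ∨ ∃ (a : ℝ) (z : ℂ), C1 p a z := by
  obtain ⟨a, ha⟩ := real_root p hm hd
  obtain ⟨q, hq⟩ := dvd_iff_isRoot.2 ha
  have hqm : q.Monic := by
    rw [hq] at hm
    exact (monic_X_sub_C a).of_mul_monic_left hm
  have hqd : q.natDegree = 2 := by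
    have h1 := (monic_X_sub_C a).natDegree_mul hqm
    rw [← hq, hd, natDegree_X_sub_C] at h1
    omega
  rcases quad_cases q hqm hqd with ⟨b, c, hbc⟩ | ⟨z, hz, hz2⟩
  · left
    have hp : p = (X - C a) * (X - C b) * (X - C c) := by rw [hq, hbc, mul_assoc]
    have hroots : p.roots = {a, b, c} := by
      have h1 : p = (({a, b, c} : Multiset ℝ).map fun x => X - C x).prod := by
        rw [hp]; simp [mul_assoc]
      rw [h1, roots_multiset_prod_X_sub_C]
    have hnd := nodup_roots hs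
    rw [hroots] at hnd
    simp only [Multiset.insert_eq_cons, Multiset.nodup_cons, Multiset.mem_cons,
      Multiset.mem_singleton, not_or, Multiset.nodup_singleton, and_true] at hnd
    obtain ⟨⟨hab, hac⟩, hbc'⟩ := hnd
    rcases lt_or_gt_of_ne hab with h1 | h1 <;> rcases lt_or_gt_of_ne hac with h2 | h2 <;>
      rcases lt_or_gt_of_ne hbc' with h3 | h3
    · exact ⟨a, b, c, h1, h3, hp⟩
    · exact ⟨a, c, b, h2, h3, by rw [hp]; ring⟩
    · linarith
    · exact ⟨c, a, b, h2, h1, by rw [hp]; ring⟩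
    · exact ⟨b, a, c, h1, h2, by rw [hp]; ring⟩
    · linarith
    · exact ⟨b, c, a, h3, h2, by rw [hp]; ring⟩
    · exact ⟨c, b, a, h3, h1, by rw [hp]; ring⟩
  · right
    exact ⟨a, z, hz, by rw [hq, hz2]⟩

/-! ### Squares modulo the cubic -/

theorem coprime_X_sub {a b : ℝ} (h : a ≠ b) : IsCoprime (X - C a : ℝ[X]) (X - C b) :=
  isCoprime_X_sub_C_of_isUnit_sub (IsUnit.mk0 _ (sub_ne_zero.2 h))

theorem sq3 {p h : ℝ[X]} {a b c : ℝ} (hp : C3 p a b c) (ha : 0 ≤ h.eval a) (hb : 0 ≤ h.eval b)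
    (hc : 0 ≤ h.eval c) : ∃ s : ℝ[X], p ∣ h - s ^ 2 := by
  have hab := hp.ab
  have hbc := hp.bc
  have h1 : a - b ≠ 0 := by linarith
  have h2 : a - c ≠ 0 := by linarith
  have h3 : b - c ≠ 0 := by linarith
  have h1' : b - a ≠ 0 := by linarith
  have h2' : c - a ≠ 0 := by linarith
  have h3' : c - b ≠ 0 := by linarith
  refine ⟨C (√(h.eval a) / ((a - b) * (a - c))) * ((X - C b) * (X - C c)) +
    C (√(h.eval b) / ((b - a) * (b - c))) * ((X - C a) * (X - C c)) +
    C (√(h.eval c) / ((c - a) * (c - b))) * ((X - C a) * (X - C b)), ?_⟩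
  set s : ℝ[X] := C (√(h.eval a) / ((a - b) * (a - c))) * ((X - C b) * (X - C c)) +
    C (√(h.eval b) / ((b - a) * (b - c))) * ((X - C a) * (X - C c)) +
    C (√(h.eval c) / ((c - a) * (c - b))) * ((X - C a) * (X - C b)) with hs
  have ea : s.eval a = √(h.eval a) := by
    rw [hs]
    simp only [eval_add, eval_mul, eval_C, eval_sub, eval_X]
    field_simp
    ring
  have eb : s.eval b = √(h.eval b) := by
    rw [hs]
    simp only [eval_add, eval_mul, eval_C, eval_sub, eval_X]
    field_simp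
    ring
  have ec : s.eval c = √(h.eval c) := by
    rw [hs]
    simp only [eval_add, eval_mul, eval_C, eval_sub, eval_X]
    field_simp
    ring
  rw [hp.eq]
  refine IsCoprime.mul_dvd (IsCoprime.mul_left (coprime_X_sub (hab.trans hbc).ne) (coprime_X_sub hbc.ne)) ?_ ?_
  · refine IsCoprime.mul_dvd (coprime_X_sub hab.ne) ?_ ?_
    · rw [dvd_iff_isRoot, IsRoot, eval_sub, eval_pow, ea, Real.sq_sqrt ha, sub_self]
    · rw [dvd_iff_isRoot, IsRoot, eval_sub, eval_pow, eb, Real.sq_sqrt hb, sub_self]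
  · rw [dvd_iff_isRoot, IsRoot, eval_sub, eval_pow, ec, Real.sq_sqrt hc, sub_self]

/-- Every class is a square modulo an irreducible quadratic polynomial. -/
theorem sqq {z : ℂ} (hz : z.im ≠ 0) (h : ℝ[X]) :
    ∃ s : ℝ[X], X ^ 2 - C (2 * z.re) * X + C (‖z‖ ^ 2) ∣ h - s ^ 2 := by
  obtain ⟨w, hw⟩ := IsAlgClosed.exists_pow_nat_eq (aeval z h) (n := 2) (by norm_num)
  refine ⟨C (w.im / z.im) * X + C (w.re - w.im / z.im * z.re), ?_⟩
  refine quadratic_dvd_of_aeval_eq_zero_im_ne_zero _ ?_ hz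
  rw [map_sub, map_pow, ← hw]
  have h1 : aeval z (C (w.im / z.im) * X + C (w.re - w.im / z.im * z.re) : ℝ[X]) = w := by
    rw [map_add, map_mul, aeval_C, aeval_C, aeval_X]
    apply Complex.ext
    · simp [Complex.coe_algebraMap]
    · simp [Complex.coe_algebraMap]
      field_simp
  rw [h1, sub_self]

theorem sq1 {p h : ℝ[X]} {a : ℝ} {z : ℂ} (hp : C1 p a z) (ha : 0 ≤ h.eval a) :
    ∃ s : ℝ[X], p ∣ h - s ^ 2 := by
  obtain ⟨s, hs⟩ := sqq hp.im h
  set q : ℝ[X] := X ^ 2 - C (2 * z.re) * X + C (‖z‖ ^ 2) with hq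
  have hqa : q.eval a ≠ 0 := by
    rw [hq]
    simp only [eval_add, eval_sub, eval_pow, eval_X, eval_mul, eval_C]
    have h1 : ‖z‖ ^ 2 = z.re ^ 2 + z.im ^ 2 := by
      rw [Complex.sq_norm, Complex.normSq_apply]; ring
    rw [h1]
    have h2 : 0 < z.im ^ 2 := by have := hp.im; positivity
    nlinarith [sq_nonneg (a - z.re)]
  have hco : IsCoprime (X - C a) q := by
    rw [(irreducible_X_sub_C a).coprime_iff_not_dvd, dvd_iff_isRoot]
    exact hqa
  refine ⟨s + q * C ((√(h.eval a) - s.eval a) / q.eval a), ?_⟩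
  rw [hp.eq]
  refine IsCoprime.mul_dvd hco ?_ ?_
  · rw [dvd_iff_isRoot, IsRoot, eval_sub, eval_pow, eval_add, eval_mul, eval_C]
    have h3 : s.eval a + q.eval a * ((√(h.eval a) - s.eval a) / q.eval a) = √(h.eval a) := by
      field_simp
      ring
    rw [h3, Real.sq_sqrt ha, sub_self]
  · have h4 : h - (s + q * C ((√(h.eval a) - s.eval a) / q.eval a)) ^ 2 = h - s ^ 2 -
      q * (2 * s * C ((√(h.eval a) - s.eval a) / q.eval a) +
        q * C ((√(h.eval a) - s.eval a) / q.eval a) ^ 2) := by ring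
    rw [h4]
    exact dvd_sub hs (Dvd.intro _ rfl)

end Pool.Agent.H18PR
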