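import Pool.Agent.H18PR.Sgn
import Pool.Agent.H68K.PR.Stm
import Pool.Agent.N31.PF.Int

/-!
# The norm at a real place (project PR of helper68)

By helper18.
-/

set_option autoImplicit false
set_option linter.all false

open Polynomial NumberField
open scoped Classical

namespace Pool.Agent.H18PR

open Pool.Agent.N783.PF
open Pool.Agent.N31.PF (fin pb minp)

section gen

variable {F L : Type} [Field F] [NumberField F] [Field L] [NumberField L] [Algebra F L]
  {f : (𝓞 F)[X]} {θ : L}

theorem irrF (h : IsGen 1 f θ) : Irreducible (fF f) := by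
  rw [← minp h]
  exact minpoly.irreducible (pb h).isIntegral_gen

theorem sepF (h : IsGen 1 f θ) : (fF f).Separable := (irrF h).separable

theorem nrm (h : IsGen 1 f θ) (p : F[X]) (n : ℕ) (hp : p.natDegree ≤ n) :
    Algebra.norm F (aeval θ p) = (fF f).resultant p 3 n := by
  haveI := fin h
  set G := fF f with hG
  have hdeg : G.natDegree = 3 := by
    rw [hG, fF, h.mon.natDegree_map, h.deg]
  set E := AlgebraicClosure L
  apply (algebraMap F E).injective
  rw [Algebra.norm_eq_prod_embeddings]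
  have hsp : (G.map (algebraMap F E)).Splits := IsAlgClosed.splits _
  have hm : (G.map (algebraMap F E)).Monic := (h.mon.map _).map _
  have hdeg' : (G.map (algebraMap F E)).natDegree = 3 := by
    rw [Monic.natDegree_map (h.mon.map _), hdeg]
  rw [← resultant_map_map, ← hdeg', resultant_eq_prod_eval _ _ _ (natDegree_map_le.trans hp) hsp,
    hm.leadingCoeff, one_pow, one_mul]
  have hmp : minpoly F (pb h).gen = G := minp h
  have hnd : ((minpoly F (pb h).gen).aroots E).Nodup := by
    rw [hmp]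
    exact nodup_roots (sepF h).map
  have key : ∏ σ : L →ₐ[F] E, σ (aeval θ p) =
      ∏ x : {y : E // y ∈ (minpoly F (pb h).gen).aroots E}, (p.map (algebraMap F E)).eval (x : E) :=
    Fintype.prod_equiv (pb h).liftEquiv' _ _ fun σ => by
      rw [PowerBasis.liftEquiv'_apply_coe, ← aeval_algHom_apply, eval_map_algebraMap]
      rfl
  rw [key, Finset.prod_mem_multiset _ _ (fun x => (p.map (algebraMap F E)).eval x)
    (fun _ => rfl), Finset.prod_eq_multiset_prod, Multiset.toFinset_val,
    Multiset.dedup_eq_self.mpr hnd, hmp]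

theorem monR (h : IsGen 1 f θ) (σ : F →+* ℝ) : ((fF f).map σ).Monic ∧
    ((fF f).map σ).natDegree = 3 ∧ ((fF f).map σ).Separable := by
  refine ⟨(h.mon.map _).map _, ?_, (sepF h).map⟩
  rw [(h.mon.map _).natDegree_map, h.mon.natDegree_map, h.deg]

theorem nrmR (h : IsGen 1 f θ) (σ : F →+* ℝ) (p : F[X]) :
    σ (Algebra.norm F (aeval θ p)) = ((fF f).map σ).resultant (p.map σ) 3 p.natDegree := by
  rw [nrm h p _ le_rfl, resultant_map_map]

theorem nrm3 (h : IsGen 1 f θ) {σ : F →+* ℝ} {a b c : ℝ} (hp : C3 ((fF f).map σ) a b c)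
    (p : F[X]) : σ (Algebra.norm F (aeval θ p)) =
      (p.map σ).eval a * (p.map σ).eval b * (p.map σ).eval c := by
  obtain ⟨h1, h2, h3⟩ := monR h σ
  have h4 : (fF f).map σ = (({a, b, c} : Multiset ℝ).map fun x => X - C x).prod := by
    rw [hp.eq]; simp [mul_assoc]
  have h5 : ((fF f).map σ).Splits := by
    rw [hp.eq]
    exact ((Splits.X_sub_C a).mul (Splits.X_sub_C b)).mul (Splits.X_sub_C c)
  rw [nrmR h, ← h2, resultant_eq_prod_eval _ _ _ natDegree_map_le h5, h1.leadingCoeff, one_pow,
    one_mul]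
  rw [h4, roots_multiset_prod_X_sub_C]
  simp [mul_assoc]

theorem nrm1 (h : IsGen 1 f θ) {σ : F →+* ℝ} {a : ℝ} {z : ℂ} (hp : C1 ((fF f).map σ) a z)
    (p : F[X]) : σ (Algebra.norm F (aeval θ p)) =
      (p.map σ).eval a * Complex.normSq (aeval z (p.map σ)) := by
  obtain ⟨h1, h2, h3⟩ := monR h σ
  have h6 : ((fF f).map σ).map (algebraMap ℝ ℂ) =
      (X - C (a : ℂ)) * ((X - C z) * (X - C ((starRingEnd ℂ) z))) := by
    rw [hp.eq]
    simp only [Polynomial.map_mul, Polynomial.map_sub, Polynomial.map_add, Polynomial.map_pow,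
      map_X, map_C, Complex.coe_algebraMap]
    have e1 : ((2 * z.re : ℝ) : ℂ) = z + (starRingEnd ℂ) z := by
      rw [Complex.add_conj]
    have e2 : ((‖z‖ ^ 2 : ℝ) : ℂ) = z * (starRingEnd ℂ) z := by
      rw [Complex.mul_conj, Complex.sq_norm]
    rw [e1, e2, C_add, C_mul]
    ring
  have h4 : ((fF f).map σ).map (algebraMap ℝ ℂ) =
      (({(a : ℂ), z, (starRingEnd ℂ) z} : Multiset ℂ).map fun x => X - C x).prod := by
    rw [h6]; simp
  have h5 : (((fF f).map σ).map (algebraMap ℝ ℂ)).Splits := IsAlgClosed.splits _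
  have h7 : (((fF f).map σ).map (algebraMap ℝ ℂ)).natDegree = 3 := by
    rw [h1.natDegree_map, h2]
  have h8 : algebraMap ℝ ℂ (σ (Algebra.norm F (aeval θ p))) =
      algebraMap ℝ ℂ ((p.map σ).eval a * Complex.normSq (aeval z (p.map σ))) := by
    rw [nrmR h, ← resultant_map_map]
    have h9 := resultant_eq_prod_eval (((fF f).map σ).map (algebraMap ℝ ℂ))
      ((p.map σ).map (algebraMap ℝ ℂ)) p.natDegree (natDegree_map_le.trans natDegree_map_le) h5
    rw [h7] at h9
    rw [h9, (h1.map _).leadingCoeff, one_pow, one_mul, h4, roots_multiset_prod_X_sub_C]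
    have e3 : ((p.map σ).map (algebraMap ℝ ℂ)).eval (a : ℂ) = (((p.map σ).eval a : ℝ) : ℂ) := by
      rw [← Complex.coe_algebraMap, eval_map_algebraMap, aeval_algebraMap_apply, coe_aeval_eq_eval]
    have e4 : ((p.map σ).map (algebraMap ℝ ℂ)).eval z = aeval z (p.map σ) := eval_map_algebraMap _ _
    have e5 : ((p.map σ).map (algebraMap ℝ ℂ)).eval ((starRingEnd ℂ) z) =
        (starRingEnd ℂ) (aeval z (p.map σ)) := by
      rw [eval_map_algebraMap, aeval_conj]
    simp only [Multiset.insert_eq_cons, Multiset.map_cons, Multiset.map_singleton,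
      Multiset.prod_cons, Multiset.prod_singleton, e3, e4, e5]
    rw [Complex.mul_conj, Complex.coe_algebraMap, Complex.ofReal_mul]
  exact (algebraMap ℝ ℂ).injective h8

end gen

end Pool.Agent.H18PR
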