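import Mathlib

/-!
# Integers of `ℚ`
-/

set_option autoImplicit false

open NumberField

namespace Pool.Agent.H18PR.RL

/-- The ring of integers of `ℚ` is `ℤ`. -/
theorem cast_bij : Function.Bijective (fun x : ℤ => (x : 𝓞 ℚ)) := by
  have h : (fun x : ℤ => (x : 𝓞 ℚ)) = Rat.ringOfIntegersEquiv.symm := by
    funext x
    exact (eq_intCast Rat.ringOfIntegersEquiv.symm x).symm
  rw [h]
  exact Rat.ringOfIntegersEquiv.symm.bijective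

/-- Pairs. -/
def E (p : ℤ × ℤ) : 𝓞 ℚ × 𝓞 ℚ := ((p.1 : 𝓞 ℚ), (p.2 : 𝓞 ℚ))

theorem E_bij : Function.Bijective E := by
  constructor
  · rintro ⟨a, b⟩ ⟨a', b'⟩ h
    have h1 := cast_bij.1 (congrArg Prod.fst h)
    have h2 := cast_bij.1 (congrArg Prod.snd h)
    exact Prod.ext h1 h2
  · rintro ⟨x, y⟩
    obtain ⟨a, ha⟩ := cast_bij.2 x
    obtain ⟨b, hb⟩ := cast_bij.2 y
    exact ⟨(a, b), Prod.ext ha hb⟩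

theorem E_fst (p : ℤ × ℤ) : (((E p).1 : 𝓞 ℚ) : ℚ) = (p.1 : ℚ) := by
  rfl

theorem E_snd (p : ℤ × ℤ) : (((E p).2 : 𝓞 ℚ) : ℚ) = (p.2 : ℚ) := by
  rfl

theorem ncard_E (S : Set (𝓞 ℚ × 𝓞 ℚ)) : {p : ℤ × ℤ | E p ∈ S}.ncard = S.ncard :=
  Set.ncard_preimage_of_injective_subset_range E_bij.1 (by
    rw [E_bij.2.range_eq]
    exact Set.subset_univ _)

theorem dvd_iff (m n : ℤ) : (m : 𝓞 ℚ) ∣ (n : 𝓞 ℚ) ↔ m ∣ n := by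
  constructor
  · rintro ⟨c, hc⟩
    obtain ⟨d, rfl⟩ := cast_bij.2 c
    refine ⟨d, cast_bij.1 ?_⟩
    show ((n : ℤ) : 𝓞 ℚ) = ((m * d : ℤ) : 𝓞 ℚ)
    rw [hc]
    push_cast
    rfl
  · rintro ⟨d, rfl⟩
    exact ⟨(d : 𝓞 ℚ), by push_cast; rfl⟩

theorem span_prime {q : ℕ} (hq : q.Prime) : (Ideal.span {((q : ℤ) : 𝓞 ℚ)}).IsPrime := by
  have h0 : ((q : ℤ) : 𝓞 ℚ) ≠ 0 := by
    intro h
    have h1 : ((q : ℤ) : 𝓞 ℚ) = ((0 : ℤ) : 𝓞 ℚ) := by rw [h, Int.cast_zero]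
    have h2 := cast_bij.1 h1
    exact hq.ne_zero (by exact_mod_cast h2)
  rw [Ideal.span_singleton_prime h0]
  have hp : Prime (q : ℤ) := Nat.prime_iff_prime_int.1 hq
  refine ⟨h0, fun hu => ?_, fun x y hxy => ?_⟩
  · have h1 : ((q : ℤ) : 𝓞 ℚ) ∣ ((1 : ℤ) : 𝓞 ℚ) := by
      rw [Int.cast_one]; exact hu.dvd
    rw [dvd_iff] at h1
    exact hp.not_isUnit (isUnit_of_dvd_one h1)
  · obtain ⟨a, rfl⟩ := cast_bij.2 x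
    obtain ⟨b, rfl⟩ := cast_bij.2 y
    have h1 : ((q : ℤ) : 𝓞 ℚ) ∣ ((a * b : ℤ) : 𝓞 ℚ) := by
      push_cast; simpa using hxy
    rw [dvd_iff] at h1
    rcases hp.dvd_or_dvd h1 with h | h
    · left; exact (dvd_iff _ _).2 h
    · right; exact (dvd_iff _ _).2 h

/-- The nonzero prime ideals. -/
theorem prime_eq {𝔭 : Ideal (𝓞 ℚ)} (h : 𝔭.IsPrime) (h0 : 𝔭 ≠ ⊥) :
    ∃ q : ℕ, q.Prime ∧ 𝔭 = Ideal.span {((q : ℤ) : 𝓞 ℚ)} := by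
  let P : Ideal ℤ := 𝔭.comap (Int.castRingHom (𝓞 ℚ))
  have hP : P.IsPrime := Ideal.comap_isPrime _ _
  obtain ⟨n, hn⟩ := (IsPrincipalIdealRing.principal P).principal
  have hmem : ∀ m : ℤ, (m : 𝓞 ℚ) ∈ 𝔭 ↔ n ∣ m := by
    intro m
    have h1 : (m : 𝓞 ℚ) ∈ 𝔭 ↔ m ∈ P := Iff.rfl
    rw [h1, hn]
    exact Ideal.mem_span_singleton
  have hn0 : n ≠ 0 := by
    rintro rfl
    apply h0
    rw [eq_bot_iff]
    intro x hx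
    obtain ⟨m, rfl⟩ := cast_bij.2 x
    have h1 := (hmem m).1 hx
    rw [zero_dvd_iff] at h1
    subst h1
    simp
  have hnp : Prime n := by
    have h1 : (Ideal.span {n}).IsPrime := by
      have h2 : P = Ideal.span {n} := hn
      rw [← h2]; exact hP
    exact (Ideal.span_singleton_prime hn0).1 h1
  refine ⟨n.natAbs, Int.prime_iff_natAbs_prime.1 hnp, ?_⟩
  ext x
  obtain ⟨m, rfl⟩ := cast_bij.2 x
  show (m : 𝓞 ℚ) ∈ 𝔭 ↔ (m : 𝓞 ℚ) ∈ Ideal.span {((n.natAbs : ℤ) : 𝓞 ℚ)}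
  rw [hmem, Ideal.mem_span_singleton, dvd_iff, Int.natAbs_dvd]

theorem mem_span_pow (q : ℕ) (m : ℤ) (k : ℕ) :
    (m : 𝓞 ℚ) ∈ Ideal.span {((q : ℤ) : 𝓞 ℚ)} ^ k ↔ (q : ℤ) ^ k ∣ m := by
  rw [Ideal.span_singleton_pow, Ideal.mem_span_singleton]
  have h : ((q : ℤ) : 𝓞 ℚ) ^ k = (((q : ℤ) ^ k : ℤ) : 𝓞 ℚ) := by push_cast; rfl
  rw [h, dvd_iff]

theorem mem_span_one (q : ℕ) (m : ℤ) :
    (m : 𝓞 ℚ) ∈ Ideal.span {((q : ℤ) : 𝓞 ℚ)} ↔ (q : ℤ) ∣ m := by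
  rw [Ideal.mem_span_singleton, dvd_iff]

/-- The naive height. -/
def Hn (p : ℤ × ℤ) : ℤ := max (4 * |p.1| ^ 3) (27 * p.2 ^ 2)

theorem Hn_le (p : ℤ × ℤ) (Y : ℝ) :
    (Hn p : ℝ) ≤ Y ↔ 4 * |(p.1 : ℝ)| ^ 3 ≤ Y ∧ 27 * |(p.2 : ℝ)| ^ 2 ≤ Y := by
  unfold Hn
  rw [Int.cast_max, max_le_iff]
  push_cast
  rw [sq_abs]

/-- The discriminant up to a factor. -/
def disc (p : ℤ × ℤ) : ℤ := 4 * p.1 ^ 3 + 27 * p.2 ^ 2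

theorem disc_E (p : ℤ × ℤ) : 4 * (E p).1 ^ 3 + 27 * (E p).2 ^ 2 = ((disc p : ℤ) : 𝓞 ℚ) := by
  unfold disc E
  push_cast
  rfl

theorem disc_ne (p : ℤ × ℤ) : 4 * (E p).1 ^ 3 + 27 * (E p).2 ^ 2 ≠ 0 ↔ disc p ≠ 0 := by
  rw [disc_E]
  constructor
  · intro h h'
    apply h; rw [h', Int.cast_zero]
  · intro h h'
    apply h
    apply cast_bij.1
    show ((disc p : ℤ) : 𝓞 ℚ) = ((0 : ℤ) : 𝓞 ℚ)
    rw [h', Int.cast_zero]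

theorem cond_iff {M : ℕ} (hM : 0 < M) (p : ℤ × ℤ) :
    (∀ 𝔭 : Ideal (𝓞 ℚ), 𝔭.IsPrime → (M : 𝓞 ℚ) ∉ 𝔭 →
      4 * (E p).1 ^ 3 + 27 * (E p).2 ^ 2 ∉ 𝔭 ^ 2) ↔
    disc p ≠ 0 ∧ ∀ q : ℕ, q.Prime → ¬ q ∣ M → ¬ (q : ℤ) ^ 2 ∣ disc p := by
  have hMc : ((M : ℕ) : 𝓞 ℚ) = (((M : ℕ) : ℤ) : 𝓞 ℚ) := by push_cast; rfl
  have hM0 : ((M : ℕ) : 𝓞 ℚ) ≠ 0 := by exact_mod_cast hM.ne'
  constructor
  · intro h
    refine ⟨?_, fun q hq hqM hqd => ?_⟩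
    · rw [← disc_ne]
      intro h0
      refine h ⊥ Ideal.isPrime_bot (fun h1 => hM0 ((Ideal.mem_bot).1 h1)) ?_
      rw [h0]; exact zero_mem _
    · refine h _ (span_prime hq) ?_ ?_
      · rw [hMc, mem_span_one]
        intro h1
        exact hqM (by exact_mod_cast h1)
      · rw [disc_E, mem_span_pow]
        exact hqd
  · rintro ⟨h1, h2⟩ 𝔭 h𝔭 hM𝔭 hd
    by_cases h0 : 𝔭 = ⊥
    · subst h0
      exact (disc_ne p).2 h1 ((Ideal.mem_bot).1 (Ideal.pow_le_self two_ne_zero hd))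
    · obtain ⟨q, hq, rfl⟩ := prime_eq h𝔭 h0
      rw [disc_E, mem_span_pow] at hd
      refine h2 q hq (fun hqM => hM𝔭 ?_) hd
      rw [hMc, mem_span_one]
      exact_mod_cast hqM

end Pool.Agent.H18PR.RL
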