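import Pool.Agent.H18PR.Cub

/-!
# Signs of the classes in the local image (project PR of helper68)

By helper18.
-/

set_option autoImplicit false
set_option linter.all false

open Polynomial
open scoped Classical

namespace Pool.Agent.H18PR

open Pool.Agent.N783.PQ (LocIm)

/-- The product of the classes. -/
noncomputable def pr {F : Type} [Field F] (l : List (F[X] × F[X])) : F[X] :=
  (l.map fun p => (-1) ^ p.1.natDegree * p.1).prod

theorem pr_nil {F : Type} [Field F] : pr ([] : List (F[X] × F[X])) = 1 := rfl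

theorem pr_cons {F : Type} [Field F] (q : F[X] × F[X]) (l : List (F[X] × F[X])) :
    pr (q :: l) = (-1) ^ q.1.natDegree * q.1 * pr l := by
  rw [pr, List.map_cons, List.prod_cons]
  rfl

theorem pos_right {w : ℝ[X]} (hw : w.Monic) {y : ℝ} (h : ∀ x, y ≤ x → w.eval x ≠ 0) :
    0 < w.eval y := by
  by_cases hd : w.natDegree = 0
  · rw [hw.natDegree_eq_zero.1 hd]; simp
  · by_contra hn
    have hneg : w.eval y < 0 := lt_of_le_of_ne (not_lt.1 hn) (h y le_rfl)
    have ht : Filter.Tendsto (fun x => w.eval x) Filter.atTop Filter.atTop :=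
      w.tendsto_atTop_of_leadingCoeff_nonneg (natDegree_pos_iff_degree_pos.1 (Nat.pos_of_ne_zero hd))
        (by rw [hw.leadingCoeff]; norm_num)
    obtain ⟨x, hx1, hx2⟩ := ((ht.eventually_gt_atTop 0).and (Filter.eventually_ge_atTop y)).exists
    have hc : ContinuousOn (fun x => w.eval x) (Set.Icc y x) := w.continuous.continuousOn
    obtain ⟨t, ht1, ht2⟩ := intermediate_value_Icc hx2 hc (show (0 : ℝ) ∈ Set.Icc _ _ from
      ⟨hneg.le, hx1.le⟩)
    exact h t ht1.1 ht2

theorem pos_left {u : ℝ[X]} (hu : u.Monic) {y : ℝ} (h : ∀ x, x ≤ y → u.eval x ≠ 0) :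
    0 < ((-1) ^ u.natDegree * u).eval y := by
  have h1 : ((-1 : ℝ[X]) ^ u.natDegree * u.comp (-X)).Monic := by
    have h2 : ((-1 : ℝ[X]) ^ u.natDegree) = C ((-1) ^ u.natDegree) := by
      rw [C_pow, C_neg, C_1]
    rw [h2, Monic, leadingCoeff_mul, leadingCoeff_C, leadingCoeff_comp (by
      rw [natDegree_neg, natDegree_X]; norm_num), hu.leadingCoeff, leadingCoeff_neg,
      leadingCoeff_X, one_mul, ← mul_pow]
    norm_num
  have h3 := pos_right h1 (y := -y) (fun x hx => by
    rw [eval_mul, eval_comp, eval_neg, eval_X, eval_pow, eval_neg, eval_one]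
    exact mul_ne_zero (pow_ne_zero _ (by norm_num)) (h _ (by linarith)))
  rw [eval_mul, eval_comp, eval_neg, eval_X, neg_neg, eval_pow, eval_neg, eval_one] at h3
  rw [eval_mul, eval_pow, eval_neg, eval_one]
  exact h3

theorem pos_mid {u : ℝ[X]} {b c : ℝ} (hbc : b ≤ c) (h : ∀ x, b ≤ x → x ≤ c → u.eval x ≠ 0) :
    0 < u.eval b * u.eval c := by
  by_contra hn
  have h1 : u.eval b * u.eval c < 0 := lt_of_le_of_ne (not_lt.1 hn)
    (mul_ne_zero (h b le_rfl hbc) (h c hbc le_rfl))
  have hcont : ContinuousOn (fun x => u.eval x) (Set.Icc b c) := u.continuous.continuousOn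
  rcases mul_neg_iff.1 h1 with ⟨h2, h3⟩ | ⟨h2, h3⟩
  · obtain ⟨t, ht1, ht2⟩ := intermediate_value_Icc' hbc hcont (show (0 : ℝ) ∈ Set.Icc _ _ from
      ⟨h3.le, h2.le⟩)
    exact h t ht1.1 ht1.2 ht2
  · obtain ⟨t, ht1, ht2⟩ := intermediate_value_Icc hbc hcont (show (0 : ℝ) ∈ Set.Icc _ _ from
      ⟨h2.le, h3.le⟩)
    exact h t ht1.1 ht1.2 ht2

/-- The polynomial is positive at the roots of `u`. -/
theorem pos_root {p u v : ℝ[X]} (hco : IsCoprime u p) (hd : u ∣ v ^ 2 - p) {t : ℝ}
    (ht : u.eval t = 0) : 0 < p.eval t := by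
  obtain ⟨k, hk⟩ := hd
  obtain ⟨r, s, hrs⟩ := hco
  have h1 := congrArg (eval t) hk
  have h2 := congrArg (eval t) hrs
  rw [eval_sub, eval_pow, eval_mul, ht, zero_mul] at h1
  rw [eval_add, eval_mul, eval_mul, ht, mul_zero, zero_add, eval_one] at h2
  have h3 : p.eval t = (v.eval t) ^ 2 := by linarith
  have h4 : p.eval t ≠ 0 := by
    intro h0
    rw [h0, mul_zero] at h2
    exact zero_ne_one h2
  rw [h3] at h4 ⊢
  positivity

theorem eval1_pos {p : ℝ[X]} {a : ℝ} {z : ℂ} (hp : C1 p a z) {t : ℝ} (ht : t ≤ a) :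
    p.eval t ≤ 0 := by
  rw [hp.eq]
  simp only [eval_add, eval_sub, eval_pow, eval_X, eval_mul, eval_C]
  have h1 : ‖z‖ ^ 2 = z.re ^ 2 + z.im ^ 2 := by
    rw [Complex.sq_norm, Complex.normSq_apply]; ring
  rw [h1]
  have h2 : 0 ≤ t ^ 2 - 2 * z.re * t + (z.re ^ 2 + z.im ^ 2) := by
    nlinarith [sq_nonneg (t - z.re), sq_nonneg z.im]
  exact mul_nonpos_of_nonpos_of_nonneg (by linarith) h2

/-- The signs at the roots, three real roots. -/
theorem list3 {p : ℝ[X]} {a b c : ℝ} (hp : C3 p a b c) (l : List (ℝ[X] × ℝ[X]))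
    (hl : ∀ q ∈ l, q.1.Monic ∧ IsCoprime q.1 p ∧ q.1 ∣ q.2 ^ 2 - p) :
    0 < (pr l).eval a ∧ 0 < (pr l).eval b * (pr l).eval c := by
  induction l with
  | nil => simp [pr_nil]
  | cons q l ih =>
    obtain ⟨h1, h2⟩ := ih fun q' hq' => hl q' (List.mem_cons_of_mem _ hq')
    obtain ⟨hm, hco, hd⟩ := hl q List.mem_cons_self
    have hab := hp.ab
    have hbc := hp.bc
    have hev : ∀ t : ℝ, p.eval t = (t - a) * (t - b) * (t - c) := by
      intro t
      rw [hp.eq]
      simp only [eval_mul, eval_sub, eval_X, eval_C]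
    have e1 := pos_left hm (y := a) (fun x hx h0 => by
      have h3 := pos_root hco hd h0
      rw [hev] at h3
      have h4 : (x - a) * (x - b) * (x - c) = - ((a - x) * ((b - x) * (c - x))) := by ring
      have h5 : 0 ≤ (a - x) * ((b - x) * (c - x)) :=
        mul_nonneg (by linarith) (mul_nonneg (by linarith) (by linarith))
      linarith)
    have e2 := pos_mid (u := (-1) ^ q.1.natDegree * q.1) hbc.le (fun x hx1 hx2 h0 => by
      have h0' : q.1.eval x = 0 := by
        rw [eval_mul, eval_pow, eval_neg, eval_one] at h0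
        exact (mul_eq_zero.1 h0).resolve_left (pow_ne_zero _ (by norm_num))
      have h3 := pos_root hco hd h0'
      rw [hev] at h3
      have h4 : (x - a) * (x - b) * (x - c) = - ((x - a) * ((x - b) * (c - x))) := by ring
      have h5 : 0 ≤ (x - a) * ((x - b) * (c - x)) :=
        mul_nonneg (by linarith) (mul_nonneg (by linarith) (by linarith))
      linarith)
    rw [pr_cons]
    constructor
    · rw [eval_mul]
      exact mul_pos e1 h1
    · rw [eval_mul, eval_mul (x := c)]
      have h6 := mul_pos e2 h2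
      calc (0 : ℝ) < _ := h6
        _ = _ := by ring

/-- The sign at the root, one real root. -/
theorem list1 {p : ℝ[X]} {a : ℝ} {z : ℂ} (hp : C1 p a z) (l : List (ℝ[X] × ℝ[X]))
    (hl : ∀ q ∈ l, q.1.Monic ∧ IsCoprime q.1 p ∧ q.1 ∣ q.2 ^ 2 - p) :
    0 < (pr l).eval a := by
  induction l with
  | nil => simp [pr_nil]
  | cons q l ih =>
    have h1 := ih fun q' hq' => hl q' (List.mem_cons_of_mem _ hq')
    obtain ⟨hm, hco, hd⟩ := hl q List.mem_cons_self
    have e1 := pos_left hm (y := a) (fun x hx h0 => by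
      have h3 := pos_root hco hd h0
      have h4 := eval1_pos hp hx
      linarith)
    rw [pr_cons, eval_mul]
    exact mul_pos e1 h1

/-- A point between the two smaller roots. -/
theorem mid_point {p : ℝ[X]} {a b c : ℝ} (hp : C3 p a b c) :
    ∃ x y : ℝ, y ≠ 0 ∧ y ^ 2 = p.eval x ∧ a < x ∧ x < b := by
  have hab := hp.ab
  have hbc := hp.bc
  have hev : p.eval ((a + b) / 2) = ((a + b) / 2 - a) * ((a + b) / 2 - b) * ((a + b) / 2 - c) := by
    rw [hp.eq]
    simp only [eval_mul, eval_sub, eval_X, eval_C]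
  have hpos : 0 < p.eval ((a + b) / 2) := by
    rw [hev]
    have h4 : ((a + b) / 2 - a) * ((a + b) / 2 - b) * ((a + b) / 2 - c) =
      ((b - a) / 2) * (((b - a) / 2) * (c - (a + b) / 2)) := by ring
    rw [h4]
    exact mul_pos (by linarith) (mul_pos (by linarith) (by linarith))
  refine ⟨(a + b) / 2, √(p.eval ((a + b) / 2)), ?_, ?_, by linarith, by linarith⟩
  · exact (Real.sqrt_pos.2 hpos).ne'
  · rw [Real.sq_sqrt hpos.le]

/-- One point suffices over the real numbers. -/
theorem cntR {p h : ℝ[X]} (hm : p.Monic) (hd : p.natDegree = 3) (hs : p.Separable)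
    (hl : LocIm ℝ p h) : (∃ g : ℝ[X], p ∣ h - g ^ 2) ∨
    ∃ x y : ℝ, y ≠ 0 ∧ y ^ 2 = p.eval x ∧ ∃ g : ℝ[X], p ∣ (C x - X) * h - g ^ 2 := by
  obtain ⟨l, s, hl, hdv⟩ := hl
  change p ∣ h * pr l - s ^ 2 at hdv
  set P := pr l with hP
  have hev : ∀ t : ℝ, p.eval t = 0 → h.eval t * P.eval t = (s.eval t) ^ 2 := by
    intro t ht
    obtain ⟨k, hk⟩ := hdv
    have h1 := congrArg (eval t) hk
    rw [eval_sub, eval_mul, eval_mul, eval_pow, ht, zero_mul] at h1
    linarith
  rcases cubic_cases p hm hd hs with ⟨a, b, c, hp⟩ | ⟨a, z, hp⟩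
  · obtain ⟨h1, h2⟩ := list3 hp l hl
    rw [← hP] at h1 h2
    have hab := hp.ab
    have hbc := hp.bc
    have hpa : p.eval a = 0 := by rw [hp.eq]; simp
    have hpb : p.eval b = 0 := by rw [hp.eq]; simp
    have hpc : p.eval c = 0 := by rw [hp.eq]; simp
    have ha : 0 ≤ h.eval a := by
      have h3 := hev a hpa
      by_contra hn
      have h4 := mul_neg_of_neg_of_pos (not_le.1 hn) h1
      nlinarith [sq_nonneg (s.eval a)]
    rcases mul_pos_iff.1 h2 with ⟨h5, h6⟩ | ⟨h5, h6⟩
    · left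
      refine sq3 hp ha ?_ ?_
      · have h3 := hev b hpb
        by_contra hn
        have h4 := mul_neg_of_neg_of_pos (not_le.1 hn) h5
        nlinarith [sq_nonneg (s.eval b)]
      · have h3 := hev c hpc
        by_contra hn
        have h4 := mul_neg_of_neg_of_pos (not_le.1 hn) h6
        nlinarith [sq_nonneg (s.eval c)]
    · right
      have hb : h.eval b ≤ 0 := by
        have h3 := hev b hpb
        by_contra hn
        have h4 := mul_neg_of_pos_of_neg (not_le.1 hn) h5
        nlinarith [sq_nonneg (s.eval b)]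
      have hc : h.eval c ≤ 0 := by
        have h3 := hev c hpc
        by_contra hn
        have h4 := mul_neg_of_pos_of_neg (not_le.1 hn) h6
        nlinarith [sq_nonneg (s.eval c)]
      obtain ⟨x, y, hy, hxy, hx1, hx2⟩ := mid_point hp
      refine ⟨x, y, hy, hxy, ?_⟩
      refine sq3 hp ?_ ?_ ?_
      · rw [eval_mul, eval_sub, eval_C, eval_X]
        exact mul_nonneg (by linarith) ha
      · rw [eval_mul, eval_sub, eval_C, eval_X]
        exact mul_nonneg_of_nonpos_of_nonpos (by linarith) hb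
      · rw [eval_mul, eval_sub, eval_C, eval_X]
        exact mul_nonneg_of_nonpos_of_nonpos (by linarith) hc
  · left
    have h1 := list1 hp l hl
    rw [← hP] at h1
    have hpa : p.eval a = 0 := by rw [hp.eq]; simp
    refine sq1 hp ?_
    have h3 := hev a hpa
    by_contra hn
    have h4 := mul_neg_of_neg_of_pos (not_le.1 hn) h1
    nlinarith [sq_nonneg (s.eval a)]

/-- Classes in the local image. -/
theorem locR {p h : ℝ[X]} {a b c : ℝ} (hp : C3 p a b c) (ha : 0 ≤ h.eval a)
    (hbc : 0 < h.eval b * h.eval c) : LocIm ℝ p h := by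
  rcases mul_pos_iff.1 hbc with ⟨h5, h6⟩ | ⟨h5, h6⟩
  · obtain ⟨s, hs⟩ := sq3 hp ha h5.le h6.le
    exact ⟨[], s, by simp, by simpa using hs⟩
  · obtain ⟨x, y, hy, hxy, hx1, hx2⟩ := mid_point hp
    have hbc' := hp.bc
    obtain ⟨s, hs⟩ := sq3 (h := h * (C x - X)) hp (by
        rw [eval_mul, eval_sub, eval_C, eval_X]
        exact mul_nonneg ha (by linarith)) (by
        rw [eval_mul, eval_sub, eval_C, eval_X]
        exact mul_nonneg_of_nonpos_of_nonpos h5.le (by linarith)) (by
        rw [eval_mul, eval_sub, eval_C, eval_X]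
        exact mul_nonneg_of_nonpos_of_nonpos h6.le (by linarith))
    refine ⟨[(X - C x, C y)], s, ?_, ?_⟩
    · intro q hq
      rw [List.mem_singleton] at hq
      subst hq
      refine ⟨monic_X_sub_C x, ?_, ?_⟩
      · rw [(irreducible_X_sub_C x).coprime_iff_not_dvd, dvd_iff_isRoot, IsRoot, ← hxy]
        exact pow_ne_zero _ hy
      · rw [dvd_iff_isRoot, IsRoot, eval_sub, eval_pow, eval_C, hxy, sub_self]
    · have h1 : pr [(X - C x, C y)] = C x - X := by
        rw [pr_cons, pr_nil, natDegree_X_sub_C]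
        ring
      change p ∣ h * pr [(X - C x, C y)] - s ^ 2
      rw [h1]
      exact hs

theorem locR1 {p h : ℝ[X]} {a : ℝ} {z : ℂ} (hp : C1 p a z) (ha : 0 ≤ h.eval a) :
    LocIm ℝ p h := by
  obtain ⟨s, hs⟩ := sq1 hp ha
  exact ⟨[], s, by simp, by simpa using hs⟩

end Pool.Agent.H18PR
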